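import Mathlib

/-! Reduction of multisets of vertex pairs and its realisation by edge-disjoint paths. -/

namespace Pool.Agent.Lib.MP_453ac3_co

/-- `Red M K`: the multiset of pairs `K` is obtained from `M` by joining two pairs at a common
end, deleting pairs and adding diagonal pairs. -/
inductive Red {V : Type} : Multiset (Sym2 V) → Multiset (Sym2 V) → Prop
  | refl (M : Multiset (Sym2 V)) : Red M M
  | merge (M K : Multiset (Sym2 V)) (x y z : V) :
      Red M (s(x, y) ::ₘ s(y, z) ::ₘ K) → Red M (s(x, z) ::ₘ K)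
  | drop (M K : Multiset (Sym2 V)) (e : Sym2 V) : Red M (e ::ₘ K) → Red M K
  | loop (M K : Multiset (Sym2 V)) (x : V) : Red M K → Red M (s(x, x) ::ₘ K)

namespace Red

variable {V : Type}

theorem trans {M K L : Multiset (Sym2 V)} (h1 : Red M K) (h2 : Red K L) : Red M L := by
  induction h2 with
  | refl => exact h1
  | merge K' x y z _ ih => exact Red.merge _ _ x y z ih
  | drop K' e _ ih => exact Red.drop _ _ e ih
  | loop K' x _ ih => exact Red.loop _ _ x ih

theorem add_right {M K : Multiset (Sym2 V)} (h : Red M K) (L : Multiset (Sym2 V)) :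
    Red (M + L) (K + L) := by
  induction h with
  | refl => exact Red.refl _
  | merge K' x y z _ ih =>
    rw [Multiset.cons_add]
    rw [Multiset.cons_add, Multiset.cons_add] at ih
    exact Red.merge _ _ x y z ih
  | drop K' e _ ih =>
    rw [Multiset.cons_add] at ih
    exact Red.drop _ _ e ih
  | loop K' x _ ih =>
    rw [Multiset.cons_add]
    exact Red.loop _ _ x ih

theorem add {M K M' K' : Multiset (Sym2 V)} (h : Red M K) (h' : Red M' K') :
    Red (M + M') (K + K') := by
  refine (h.add_right M').trans ?_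
  rw [add_comm K M', add_comm K K']
  exact h'.add_right K

theorem sum {ι : Type} (s : Finset ι) (f g : ι → Multiset (Sym2 V))
    (h : ∀ i ∈ s, Red (f i) (g i)) : Red (∑ i ∈ s, f i) (∑ i ∈ s, g i) := by
  classical
  induction s using Finset.induction_on with
  | empty => simpa using Red.refl 0
  | insert a s ha ih =>
    rw [Finset.sum_insert ha, Finset.sum_insert ha]
    exact (h a (by simp)).add (ih fun i hi => h i (by simp [hi]))

theorem to_zero (M : Multiset (Sym2 V)) : Red M 0 := by
  induction M using Multiset.induction_on with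
  | empty => exact Red.refl _
  | cons a M ih => exact (Red.drop _ _ a (Red.refl _)).trans ih

theorem of_le {M K : Multiset (Sym2 V)} (h : K ≤ M) : Red M K := by
  obtain ⟨L, rfl⟩ := Multiset.le_iff_exists_add.1 h
  simpa using (Red.refl K).add (to_zero L)

theorem of_eq {M K : Multiset (Sym2 V)} (h : M = K) : Red M K := h ▸ Red.refl _

theorem map {W : Type} (f : V → W) {M K : Multiset (Sym2 V)} (h : Red M K) :
    Red (M.map (Sym2.map f)) (K.map (Sym2.map f)) := by
  induction h with
  | refl => exact Red.refl _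
  | merge K' x y z _ ih =>
    simp only [Multiset.map_cons, Sym2.map_mk] at ih ⊢
    exact Red.merge _ _ _ _ _ ih
  | drop K' e _ ih =>
    simp only [Multiset.map_cons] at ih
    exact Red.drop _ _ _ ih
  | loop K' x _ ih =>
    simp only [Multiset.map_cons, Sym2.map_mk]
    exact Red.loop _ _ _ ih

theorem merge2 (x y z : V) : Red {s(x, y), s(y, z)} {s(x, z)} :=
  Red.merge _ 0 x y z (Red.refl _)

theorem merge3 (x y z u : V) : Red {s(x, y), s(y, z), s(z, u)} {s(x, u)} :=
  Red.merge _ 0 x z u (Red.merge _ {s(z, u)} x y z (Red.refl _))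

theorem loop0 (x : V) : Red (0 : Multiset (Sym2 V)) {s(x, x)} :=
  Red.loop _ 0 x (Red.refl _)

end Red

theorem cons_of_map_eq {α β : Type} {f : α → β} {R : Multiset α} {b : β} {K : Multiset β}
    (h : R.map f = b ::ₘ K) : ∃ r R1, R = r ::ₘ R1 ∧ f r = b ∧ R1.map f = K := by
  classical
  obtain ⟨a, ha, h1, h2⟩ := (Multiset.map_eq_cons f R K b).2 h
  exact ⟨a, R.erase a, (Multiset.cons_erase ha).symm, h1, h2⟩

/-- A realisation of `K` inside the edge multiset `E`. -/
def Real' {V : Type} (G : SimpleGraph V) (E K : Multiset (Sym2 V)) : Prop :=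
  ∃ R : Multiset (Sym2 V × Multiset (Sym2 V)), R.map Prod.fst = K ∧
    (R.map Prod.snd).sum ≤ E ∧
    ∀ r ∈ R, ∀ x y, r.1 = s(x, y) → ∃ p : G.Walk x y, ∀ a ∈ p.edges, a ∈ r.2

theorem real_of_red {V : Type} (G : SimpleGraph V) {E K : Multiset (Sym2 V)}
    (hE : ∀ e ∈ E, e ∈ G.edgeSet) (h : Red E K) : Real' G E K := by
  induction h with
  | refl =>
    refine ⟨E.map fun e => (e, {e}), by simp, by simp, ?_⟩
    intro r hr x y hxy
    obtain ⟨e, he, rfl⟩ := Multiset.mem_map.1 hr
    simp only at hxy
    have hadj : G.Adj x y := by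
      have := hE e he
      rwa [hxy] at this
    exact ⟨SimpleGraph.Walk.cons hadj SimpleGraph.Walk.nil, by simp [hxy]⟩
  | merge K' x y z _ ih =>
    obtain ⟨R, h1, h2, h3⟩ := ih
    obtain ⟨r1, R1, rfl, hr1, h1'⟩ := cons_of_map_eq h1
    obtain ⟨r2, R2, rfl, hr2, h1''⟩ := cons_of_map_eq h1'
    refine ⟨(s(x, z), r1.2 + r2.2) ::ₘ R2, by simp [h1''], ?_, ?_⟩
    · simpa [add_assoc] using h2
    · intro r hr a b hab
      rcases Multiset.mem_cons.1 hr with rfl | hr
      · obtain ⟨p, hp⟩ := h3 r1 (by simp) x y hr1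
        obtain ⟨q, hq⟩ := h3 r2 (by simp) y z hr2
        have key : ∀ e ∈ (p.append q).edges, e ∈ r1.2 + r2.2 := by
          intro e he
          rw [SimpleGraph.Walk.edges_append, List.mem_append] at he
          rw [Multiset.mem_add]
          exact he.imp (hp e) (hq e)
        simp only [Sym2.eq_iff] at hab
        rcases hab with ⟨rfl, rfl⟩ | ⟨rfl, rfl⟩
        · exact ⟨p.append q, key⟩
        · refine ⟨(p.append q).reverse, fun e he => key e ?_⟩
          rw [SimpleGraph.Walk.edges_reverse, List.mem_reverse] at he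
          exact he
      · exact h3 r (by simp [hr]) a b hab
  | drop K' e _ ih =>
    obtain ⟨R, h1, h2, h3⟩ := ih
    obtain ⟨r1, R1, rfl, hr1, h1'⟩ := cons_of_map_eq h1
    refine ⟨R1, h1', ?_, fun r hr => h3 r (by simp [hr])⟩
    refine le_trans ?_ h2
    simp
  | loop K' x _ ih =>
    obtain ⟨R, h1, h2, h3⟩ := ih
    refine ⟨(s(x, x), 0) ::ₘ R, by simp [h1], by simpa using h2, ?_⟩
    intro r hr a b hab
    rcases Multiset.mem_cons.1 hr with rfl | hr
    · simp only [Sym2.eq_iff] at hab
      obtain ⟨rfl, rfl⟩ : x = a ∧ x = b := by tauto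
      exact ⟨SimpleGraph.Walk.nil, by simp⟩
    · exact h3 r hr a b hab

theorem paths_of_red {V ι : Type} [Fintype ι] (G : SimpleGraph V) {E : Multiset (Sym2 V)}
    (hE : ∀ e ∈ E, e ∈ G.edgeSet) (hnd : E.Nodup) (s t : ι → V)
    (hinj : Function.Injective fun i => s(s i, t i))
    (h : Red E (∑ i, {s(s i, t i)})) :
    ∃ P : ∀ i, G.Walk (s i) (t i), (∀ i, (P i).IsPath) ∧
      Pairwise fun i j => List.Disjoint (P i).edges (P j).edges := by
  classical
  obtain ⟨R, h1, h2, h3⟩ := real_of_red G hE h
  have hex : ∀ i, ∃ r ∈ R, r.1 = s(s i, t i) := by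
    intro i
    have : s(s i, t i) ∈ R.map Prod.fst := by
      rw [h1, Multiset.mem_sum]
      exact ⟨i, Finset.mem_univ _, by simp⟩
    simpa using Multiset.mem_map.1 this
  choose r hr hr1 using hex
  choose p hp using fun i => h3 (r i) (hr i) (s i) (t i) (hr1 i)
  refine ⟨fun i => (p i).bypass, fun i => (p i).bypass_isPath, ?_⟩
  intro i j hij e hei hej
  have hei' := hp i e ((p i).edges_bypass_subset_edges hei)
  have hej' := hp j e ((p j).edges_bypass_subset_edges hej)
  have hne : r i ≠ r j := fun hh => hij (hinj (by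
    show s(s i, t i) = s(s j, t j)
    rw [← hr1 i, ← hr1 j, hh]))
  obtain ⟨R1, hR1⟩ := Multiset.exists_cons_of_mem (hr i)
  have hj : r j ∈ R1 := by
    have := hr j
    rw [hR1, Multiset.mem_cons] at this
    exact this.resolve_left hne.symm
  obtain ⟨R2, hR2⟩ := Multiset.exists_cons_of_mem hj
  have hle : (r i).2 + (r j).2 ≤ E := by
    refine le_trans ?_ h2
    rw [hR1, hR2]
    simp only [Multiset.map_cons, Multiset.sum_cons, ← add_assoc]
    exact Multiset.le_add_right _ _
  have := Multiset.nodup_add.1 (Multiset.nodup_of_le hle hnd)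
  exact Multiset.disjoint_left.1 this.2.2 hei' hej'

end Pool.Agent.Lib.MP_453ac3_co
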