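import Pool.Agent.Lib.MP_453ac3_co.LB.St
import Pool.Agent.Lib.MP_453ac3_co.UB.St

namespace Pool.Agent.Lib.MP_453ac3_co

open Filter Topology

open Classical in
/-- The least maximum degree of a planar path-pairable graph on `n` vertices. -/
noncomputable def deltaMin (n : ℕ) : ℕ :=
  sInf {d : ℕ | ∃ G : SimpleGraph (Fin n), IsPlanar G ∧ PathPairable G ∧ G.maxDegree = d}

theorem tendsto_of_bounds (hL : LB.LBStmt) (hU : UB.UBStmt) :
    Tendsto (fun n : ℕ => (deltaMin n : ℝ) / n) atTop (𝓝 (4 / 9)) := by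
  classical
  rw [Metric.tendsto_atTop]
  intro ε hε
  obtain ⟨n0, h0⟩ := hL (ε / 2) (by positivity)
  obtain ⟨n1, h1⟩ := hU (ε / 2) (by positivity)
  refine ⟨n0 + n1 + 1, fun n hn => ?_⟩
  have hn0 : (0 : ℝ) < n := by exact_mod_cast (show 0 < n by omega)
  have : Nonempty (Fin n) := ⟨⟨0, by omega⟩⟩
  have deg : ∀ (G : SimpleGraph (Fin n)) (v : Fin n), (G.neighborSet v).ncard = G.degree v := by
    intro G v
    rw [← SimpleGraph.card_neighborFinset_eq_degree, ← Set.ncard_coe_finset]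
    simp
  obtain ⟨G, hp, hpp, hd⟩ := h1 n (by omega)
  have up : (deltaMin n : ℝ) ≤ (4 / 9 + ε / 2) * n := by
    have h2 : deltaMin n ≤ G.maxDegree := Nat.sInf_le ⟨G, hp, hpp, rfl⟩
    obtain ⟨v, hv⟩ := G.exists_maximal_degree_vertex
    have h3 := hd v
    rw [deg, ← hv] at h3
    exact le_trans (by exact_mod_cast h2) h3
  have lo : (4 / 9 - ε / 2) * n ≤ (deltaMin n : ℝ) := by
    obtain ⟨G', hp', hpp', he⟩ := Nat.sInf_mem (s := {d : ℕ | ∃ G : SimpleGraph (Fin n),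
      IsPlanar G ∧ PathPairable G ∧ G.maxDegree = d}) ⟨_, G, hp, hpp, rfl⟩
    obtain ⟨v, hv⟩ := h0 (Fin n) G' (by simp; omega) hp' hpp'
    rw [deg, Fintype.card_fin] at hv
    have h2 : G'.degree v ≤ deltaMin n := (G'.degree_le_maxDegree v).trans he.le
    exact hv.trans (by exact_mod_cast h2)
  rw [Real.dist_eq, abs_lt]
  have a1 : (deltaMin n : ℝ) / n ≤ 4 / 9 + ε / 2 := (div_le_iff₀ hn0).2 up
  have a2 : 4 / 9 - ε / 2 ≤ (deltaMin n : ℝ) / n := (le_div_iff₀ hn0).2 lo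
  constructor <;> linarith

end Pool.Agent.Lib.MP_453ac3_co
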