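import Mathlib

namespace Pool.Agent.Lib.MP_453ac3_co

/-- Planarity in Wagner's form: neither `K_5` nor `K_{3,3}` is a minor of `G`
(branch sets are connected, pairwise disjoint, and joined by edges as required). -/
def IsPlanar {V : Type} (G : SimpleGraph V) : Prop :=
  (¬ ∃ f : Fin 5 → Set V,
      (∀ i, (G.induce (f i)).Connected) ∧
      (∀ i j, i ≠ j → Disjoint (f i) (f j)) ∧
      (∀ i j, i ≠ j → ∃ a ∈ f i, ∃ b ∈ f j, G.Adj a b)) ∧
  (¬ ∃ f : Fin 3 ⊕ Fin 3 → Set V,
      (∀ i, (G.induce (f i)).Connected) ∧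
      (∀ i j, i ≠ j → Disjoint (f i) (f j)) ∧
      (∀ i j, ∃ a ∈ f (Sum.inl i), ∃ b ∈ f (Sum.inr j), G.Adj a b))

/-- For all pairwise disjoint pairs `{s i, t i}` of distinct vertices there are pairwise
edge-disjoint paths joining `s i` to `t i`. -/
def PathPairable {V : Type} (G : SimpleGraph V) : Prop :=
  ∀ (k : ℕ) (s t : Fin k → V), Function.Injective (Sum.elim s t) →
    ∃ P : ∀ i, G.Walk (s i) (t i), (∀ i, (P i).IsPath) ∧
      Pairwise fun i j => List.Disjoint (P i).edges (P j).edges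

end Pool.Agent.Lib.MP_453ac3_co
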