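import Pool.Agent.Lib.MP_453ac3_co.Defs

/-! The graph: four mutually adjacent hubs, blocks of two adjacent vertices joined to two hubs,
and pendant vertices at hub `0`. -/

namespace Pool.Agent.Lib.MP_453ac3_co

open Sum

/-- Vertex type. -/
abbrev VV (β ρ : Type) := Fin 4 ⊕ (β × Bool) ⊕ ρ

variable {β ρ : Type} (p q : β → Fin 4)

/-- Generating relation. -/
def rel : VV β ρ → VV β ρ → Prop
  | inl _, inl _ => True
  | inr (inl a), inl x => x = p a.1 ∨ x = q a.1
  | inr (inl a), inr (inl b) => a.1 = b.1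
  | inr (inr _), inl x => x = 0
  | _, _ => False

/-- The graph. -/
def GG (ρ : Type) : SimpleGraph (VV β ρ) := SimpleGraph.fromRel (rel p q)

theorem adj_hub_hub (x y : Fin 4) : (GG p q ρ).Adj (inl x) (inl y) ↔ x ≠ y := by
  simp [GG, rel]

theorem adj_block (j : β) (c : Bool) (v : VV β ρ) : (GG p q ρ).Adj (inr (inl (j, c))) v ↔
    v = inl (p j) ∨ v = inl (q j) ∨ v = inr (inl (j, !c)) := by
  rcases v with x | ⟨j', c'⟩ | z
  · simp [GG, rel]
  · simp only [GG, rel, SimpleGraph.fromRel_adj, ne_eq, inr.injEq, inl.injEq, Prod.mk.injEq,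
      reduceCtorEq, false_or]
    cases c <;> cases c' <;> simp [eq_comm]
  · simp [GG, rel]

theorem adj_pend (z : ρ) (v : VV β ρ) : (GG p q ρ).Adj (inr (inr z)) v ↔ v = inl 0 := by
  rcases v with x | ⟨j', c'⟩ | z
  · simp [GG, rel]
  · simp [GG, rel]
  · simp [GG, rel]

/-- A connected set is closed up: a property inherited along edges inside the set spreads. -/
theorem conn_ind {V : Type} {G : SimpleGraph V} {S : Set V} (h : (G.induce S).Connected)
    (P : V → Prop) (hP : ∀ a ∈ S, ∀ b ∈ S, G.Adj a b → P a → P b) {a : V} (ha : a ∈ S)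
    (hPa : P a) : ∀ b ∈ S, P b := by
  intro b hb
  obtain ⟨w⟩ := h.preconnected ⟨a, ha⟩ ⟨b, hb⟩
  suffices ∀ (x y : S) (w : (G.induce S).Walk x y), P x.1 → P y.1 from this _ _ w hPa
  intro x y w
  induction w with
  | nil => exact id
  | cons hadj _ ih => exact fun hx => ih (hP _ (Subtype.prop _) _ (Subtype.prop _) hadj hx)

/-- A connected set without hubs has few outside neighbours. -/
theorem hubfree {S : Set (VV β ρ)} (h : ((GG p q ρ).induce S).Connected)
    (hS : ∀ x, inl x ∉ S) : (∃ z, S ⊆ {inr (inr z)}) ∨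
      ∃ j c, inr (inl (j, c)) ∈ S ∧ S ⊆ {inr (inl (j, c)), inr (inl (j, !c))} := by
  obtain ⟨⟨a, ha⟩⟩ := h.nonempty
  rcases a with x | ⟨j, c⟩ | z
  · exact absurd ha (hS x)
  · refine Or.inr ⟨j, c, ha, ?_⟩
    refine conn_ind h (· ∈ ({inr (inl (j, c)), inr (inl (j, !c))} : Set (VV β ρ))) ?_ ha (by simp)
    intro a _ b hb hab hPa
    rcases hPa with rfl | rfl
    · rcases (adj_block p q _ _ _).1 hab with rfl | rfl | rfl
      · exact absurd hb (hS _)
      · exact absurd hb (hS _)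
      · simp
    · rcases (adj_block p q _ _ _).1 hab with rfl | rfl | rfl
      · exact absurd hb (hS _)
      · exact absurd hb (hS _)
      · simp
  · refine Or.inl ⟨z, ?_⟩
    refine conn_ind h (· ∈ ({inr (inr z)} : Set (VV β ρ))) ?_ ha (by simp)
    intro a _ b hb hab hPa
    rcases hPa with rfl
    rw [(adj_pend p q _ _).1 hab] at hb
    exact absurd hb (hS _)

/-- The outside neighbours of a hub-free connected set lie among two hubs and one more vertex,
whose neighbours other than the two hubs lie in the set. -/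
theorem hubfree_nbrs {S : Set (VV β ρ)} (h : ((GG p q ρ).induce S).Connected)
    (hS : ∀ x, inl x ∉ S) : ∃ (x y : Fin 4) (m : VV β ρ),
      (∀ a ∈ S, ∀ b, b ∉ S → (GG p q ρ).Adj a b → b = inl x ∨ b = inl y ∨ b = m) ∧
      (∀ b, (GG p q ρ).Adj m b → b = inl x ∨ b = inl y ∨ b ∈ S ∨ m = inl x) := by
  rcases hubfree p q h hS with ⟨z, hz⟩ | ⟨j, c, hj, hsub⟩
  · refine ⟨0, 0, inl 0, ?_, fun b _ => by simp⟩
    intro a ha b _ hab
    rw [hz ha] at hab
    exact Or.inl ((adj_pend p q _ _).1 hab)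
  · refine ⟨p j, q j, inr (inl (j, !c)), ?_, ?_⟩
    · intro a ha b hb hab
      rcases hsub ha with rfl | rfl
      · exact (adj_block p q _ _ _).1 hab
      · rcases (adj_block p q _ _ _).1 hab with rfl | rfl | rfl
        · simp
        · simp
        · simp only [Bool.not_not] at hb
          exact absurd hj hb
    · intro b hb
      rcases (adj_block p q _ _ _).1 hb with rfl | rfl | rfl
      · simp
      · simp
      · simp [hj]

theorem exists_hubfree {ι : Type} [Fintype ι] (hι : 4 < Fintype.card ι) (f : ι → Set (VV β ρ))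
    (hd : ∀ i j, i ≠ j → Disjoint (f i) (f j)) : ∃ i, ∀ x, inl x ∉ f i := by
  by_contra hc
  push Not at hc
  choose g hg using hc
  obtain ⟨i, j, hij, e⟩ := Fintype.exists_ne_map_eq_of_card_lt g (by simpa using hι)
  exact Set.disjoint_left.1 (hd i j hij) (hg i) (e ▸ hg j)

theorem no_K5 : ¬ ∃ f : Fin 5 → Set (VV β ρ),
      (∀ i, ((GG p q ρ).induce (f i)).Connected) ∧
      (∀ i j, i ≠ j → Disjoint (f i) (f j)) ∧
      (∀ i j, i ≠ j → ∃ a ∈ f i, ∃ b ∈ f j, (GG p q ρ).Adj a b) := by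
  rintro ⟨f, h1, h2, h3⟩
  obtain ⟨i, hi⟩ := exists_hubfree (by simp) f h2
  obtain ⟨x, y, m, hm, -⟩ := hubfree_nbrs p q (h1 i) hi
  have key : ∀ j : {j // j ≠ i}, ∃ u : Fin 3, (![inl x, inl y, m] u : VV β ρ) ∈ f j.1 := by
    rintro ⟨j, hj⟩
    obtain ⟨a, ha, b, hb, hab⟩ := h3 i j hj.symm
    have hb' : b ∉ f i := fun hh => Set.disjoint_left.1 (h2 i j hj.symm) hh hb
    rcases hm a ha b hb' hab with rfl | rfl | rfl
    · exact ⟨0, hb⟩
    · exact ⟨1, hb⟩
    · exact ⟨2, hb⟩
  choose g hg using key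
  obtain ⟨j, j', hjj, e⟩ := Fintype.exists_ne_map_eq_of_card_lt g (by simp)
  exact Set.disjoint_left.1 (h2 j.1 j'.1 fun hh => hjj (Subtype.ext hh)) (hg j) (e ▸ hg j')

theorem no_K33_aux (f g : Fin 3 → Set (VV β ρ))
    (hf : ∀ i, ((GG p q ρ).induce (f i)).Connected)
    (hg : ∀ i, ((GG p q ρ).induce (g i)).Connected)
    (dff : ∀ i j, i ≠ j → Disjoint (f i) (f j)) (dgg : ∀ i j, i ≠ j → Disjoint (g i) (g j))
    (dfg : ∀ i j, Disjoint (f i) (g j))
    (ha : ∀ i j, ∃ a ∈ f i, ∃ b ∈ g j, (GG p q ρ).Adj a b) (i : Fin 3)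
    (hi : ∀ x, inl x ∉ f i) : False := by
  obtain ⟨x, y, m, hm, hm'⟩ := hubfree_nbrs p q (hf i) hi
  have key : ∀ j : Fin 3, ∃ u : Fin 3, (![inl x, inl y, m] u : VV β ρ) ∈ g j := by
    intro j
    obtain ⟨a, ha, b, hb, hab⟩ := ha i j
    have hb' : b ∉ f i := fun hh => Set.disjoint_left.1 (dfg i j) hh hb
    rcases hm a ha b hb' hab with rfl | rfl | rfl
    · exact ⟨0, hb⟩
    · exact ⟨1, hb⟩
    · exact ⟨2, hb⟩
  choose u hu using key
  have hinj : Function.Injective u := by
    intro j j' e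
    by_contra hjj
    exact Set.disjoint_left.1 (dgg j j' hjj) (hu j) (e ▸ hu j')
  have hsurj := Finite.injective_iff_surjective.1 hinj
  obtain ⟨j0, e0⟩ := hsurj 0
  obtain ⟨j1, e1⟩ := hsurj 1
  obtain ⟨j2, e2⟩ := hsurj 2
  have m0 : inl x ∈ g j0 := by simpa [e0] using hu j0
  have m1 : inl y ∈ g j1 := by simpa [e1] using hu j1
  have m2 : m ∈ g j2 := by simpa [e2] using hu j2
  have n0 : j0 ≠ j2 := fun e => by rw [e, e2] at e0; exact absurd e0 (by decide)
  have n1 : j1 ≠ j2 := fun e => by rw [e, e2] at e1; exact absurd e1 (by decide)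
  have x0 : inl x ∉ g j2 := fun hh => Set.disjoint_left.1 (dgg _ _ n0) m0 hh
  have x1 : inl y ∉ g j2 := fun hh => Set.disjoint_left.1 (dgg _ _ n1) m1 hh
  have hall : ∀ b ∈ g j2, b = m := by
    refine conn_ind (hg j2) (· = m) ?_ m2 rfl
    rintro a _ b hb hab rfl
    rcases hm' b hab with rfl | rfl | hh | hh
    · exact absurd hb x0
    · exact absurd hb x1
    · exact absurd hb (Set.disjoint_left.1 (dfg i j2) hh)
    · exact absurd (hh ▸ m2) x0
  obtain ⟨i', hi'⟩ := exists_ne i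
  obtain ⟨a, ha, b, hb, hab⟩ := ha i' j2
  rw [hall b hb] at hab
  rcases hm' a hab.symm with rfl | rfl | hh | hh
  · exact Set.disjoint_left.1 (dfg i' j0) ha m0
  · exact Set.disjoint_left.1 (dfg i' j1) ha m1
  · exact Set.disjoint_left.1 (dff i' i hi') ha hh
  · exact absurd (hh ▸ m2) x0

theorem planar : IsPlanar (GG p q ρ) := by
  refine ⟨no_K5 p q, ?_⟩
  rintro ⟨f, h1, h2, h3⟩
  obtain ⟨i, hi⟩ := exists_hubfree (by simp) f h2
  rcases i with i | i
  · exact no_K33_aux p q (fun i => f (inl i)) (fun i => f (inr i)) (fun _ => h1 _) (fun _ => h1 _)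
      (fun i j hij => h2 _ _ (by simpa using hij)) (fun i j hij => h2 _ _ (by simpa using hij))
      (fun i j => h2 _ _ (by simp)) h3 i hi
  · refine no_K33_aux p q (fun i => f (inr i)) (fun i => f (inl i)) (fun _ => h1 _)
      (fun _ => h1 _)
      (fun i j hij => h2 _ _ (by simpa using hij)) (fun i j hij => h2 _ _ (by simpa using hij))
      (fun i j => h2 _ _ (by simp)) ?_ i hi
    intro i j
    obtain ⟨a, ha, b, hb, hab⟩ := h3 j i
    exact ⟨b, hb, a, ha, hab.symm⟩

theorem degree_le [Fintype β] [Fintype ρ] (m : ℕ)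
    (hm : ∀ x, ∑ j, (if p j = x ∨ q j = x then 1 else 0) ≤ m) (v : VV β ρ) :
    ((GG p q ρ).neighborSet v).ncard ≤ 4 + 2 * m + Fintype.card ρ := by
  classical
  rcases v with x | ⟨j, c⟩ | z
  · have : (GG p q ρ).neighborSet (inl x) =
        ↑(Finset.univ.filter ((GG p q ρ).Adj (inl x))) := by ext; simp
    rw [this, Set.ncard_coe_finset, Finset.card_filter, Fintype.sum_sum_type,
      Fintype.sum_sum_type, Fintype.sum_prod_type]
    have a1 : ∑ y : Fin 4, (if (GG p q ρ).Adj (inl x) (inl y) then 1 else 0) ≤ 4 :=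
      (Finset.sum_le_sum (g := fun _ => 1) fun _ _ => by split_ifs <;> simp).trans (by simp)
    have a3 : ∑ z : ρ, (if (GG p q ρ).Adj (inl x) (inr (inr z)) then 1 else 0) ≤
        Fintype.card ρ :=
      (Finset.sum_le_sum (g := fun _ => 1) fun _ _ => by split_ifs <;> simp).trans (by simp)
    have a2 : ∑ j : β, ∑ c : Bool,
        (if (GG p q ρ).Adj (inl x) (inr (inl (j, c))) then 1 else 0) ≤ 2 * m := by
      refine le_trans (le_of_eq ?_) (Nat.mul_le_mul_left 2 (hm x))
      rw [Finset.mul_sum]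
      refine Finset.sum_congr rfl fun j _ => ?_
      simp only [(GG p q ρ).adj_comm (inl x), adj_block]
      by_cases h : p j = x ∨ q j = x
      · have : x = p j ∨ x = q j := h.imp Eq.symm Eq.symm
        simp [h, this]
      · have : ¬ (x = p j ∨ x = q j) := fun hh => h (hh.imp Eq.symm Eq.symm)
        simp [h, this]
    omega
  · have : (GG p q ρ).neighborSet (inr (inl (j, c))) =
        {inl (p j), inl (q j), inr (inl (j, !c))} := by
      ext v; simp [adj_block]
    rw [this]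
    have := Set.ncard_insert_le (inl (p j) : VV β ρ) {inl (q j), inr (inl (j, !c))}
    have := Set.ncard_insert_le (inl (q j) : VV β ρ) {inr (inl (j, !c))}
    have := Set.ncard_singleton (inr (inl (j, !c)) : VV β ρ)
    omega
  · have : (GG p q ρ).neighborSet (inr (inr z)) = {inl 0} := by
      ext v; simp [adj_pend]
    rw [this, Set.ncard_singleton]
    omega

end Pool.Agent.Lib.MP_453ac3_co
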