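import Pool.Agent.Lib.MP_453ac3_co.K4

/-! The cut criterion on four vertices, for multisets of pairs. -/

namespace Pool.Agent.Lib.MP_453ac3_co

/-- Indicator that a pair crosses the cut `σ`. -/
def cr (σ : Fin 4 → Bool) : Sym2 (Fin 4) → ℕ :=
  Sym2.lift ⟨fun a b => if σ a = σ b then 0 else 1, fun a b => by simp [eq_comm]⟩

@[simp] theorem cr_mk (σ : Fin 4 → Bool) (a b : Fin 4) :
    cr σ s(a, b) = if σ a = σ b then 0 else 1 := rfl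

/-- Number of pairs crossing the cut `σ`. -/
def cut (σ : Fin 4 → Bool) (M : Multiset (Sym2 (Fin 4))) : ℕ := (M.map (cr σ)).sum

theorem cut_add (σ : Fin 4 → Bool) (M K : Multiset (Sym2 (Fin 4))) :
    cut σ (M + K) = cut σ M + cut σ K := by simp [cut]

theorem cut_sum {ι : Type} (σ : Fin 4 → Bool) (I : Finset ι) (f : ι → Sym2 (Fin 4)) :
    cut σ (∑ i ∈ I, {f i}) = ∑ i ∈ I, cr σ (f i) := by
  classical
  induction I using Finset.induction_on with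
  | empty => simp [cut]
  | insert a s ha ih => rw [Finset.sum_insert ha, Finset.sum_insert ha, cut_add, ih]; simp [cut]

/-- The diagonal pairs with multiplicities. -/
def LL (l0 l1 l2 l3 : ℕ) : Multiset (Sym2 (Fin 4)) :=
  l0 • {s(0, 0)} + l1 • {s(1, 1)} + l2 • {s(2, 2)} + l3 • {s(3, 3)}

theorem LL_add (l0 l1 l2 l3 m0 m1 m2 m3 : ℕ) :
    LL (l0 + m0) (l1 + m1) (l2 + m2) (l3 + m3) = LL l0 l1 l2 l3 + LL m0 m1 m2 m3 := by
  simp only [LL, add_smul]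
  abel

theorem red_loops (x : Fin 4) (l : ℕ) : Red 0 (l • ({s(x, x)} : Multiset (Sym2 (Fin 4)))) := by
  induction l with
  | zero => simpa using Red.refl _
  | succ l ih => rw [succ_nsmul]; simpa using ih.add (Red.loop0 x)

theorem red_LL (l0 l1 l2 l3 : ℕ) : Red 0 (LL l0 l1 l2 l3) := by
  simpa [LL] using (((red_loops 0 l0).add (red_loops 1 l1)).add (red_loops 2 l2)).add
    (red_loops 3 l3)

theorem single_decomp (e : Sym2 (Fin 4)) : ∃ w0 w1 w2 w3 w4 w5 l0 l1 l2 l3 : Fin 2,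
    ({e} : Multiset (Sym2 (Fin 4))) = KK w0 w1 w2 w3 w4 w5 + LL l0 l1 l2 l3 := by
  induction e using Sym2.ind with
  | h a b =>
    fin_cases a <;> fin_cases b
    · exact ⟨0, 0, 0, 0, 0, 0, 1, 0, 0, 0, by decide⟩
    · exact ⟨1, 0, 0, 0, 0, 0, 0, 0, 0, 0, by decide⟩
    · exact ⟨0, 1, 0, 0, 0, 0, 0, 0, 0, 0, by decide⟩
    · exact ⟨0, 0, 1, 0, 0, 0, 0, 0, 0, 0, by decide⟩
    · exact ⟨1, 0, 0, 0, 0, 0, 0, 0, 0, 0, by decide⟩
    · exact ⟨0, 0, 0, 0, 0, 0, 0, 1, 0, 0, by decide⟩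
    · exact ⟨0, 0, 0, 1, 0, 0, 0, 0, 0, 0, by decide⟩
    · exact ⟨0, 0, 0, 0, 1, 0, 0, 0, 0, 0, by decide⟩
    · exact ⟨0, 1, 0, 0, 0, 0, 0, 0, 0, 0, by decide⟩
    · exact ⟨0, 0, 0, 1, 0, 0, 0, 0, 0, 0, by decide⟩
    · exact ⟨0, 0, 0, 0, 0, 0, 0, 0, 1, 0, by decide⟩
    · exact ⟨0, 0, 0, 0, 0, 1, 0, 0, 0, 0, by decide⟩
    · exact ⟨0, 0, 1, 0, 0, 0, 0, 0, 0, 0, by decide⟩
    · exact ⟨0, 0, 0, 0, 1, 0, 0, 0, 0, 0, by decide⟩
    · exact ⟨0, 0, 0, 0, 0, 1, 0, 0, 0, 0, by decide⟩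
    · exact ⟨0, 0, 0, 0, 0, 0, 0, 0, 0, 1, by decide⟩

theorem decomp (M : Multiset (Sym2 (Fin 4))) : ∃ w0 w1 w2 w3 w4 w5 l0 l1 l2 l3 : ℕ,
    M = KK w0 w1 w2 w3 w4 w5 + LL l0 l1 l2 l3 := by
  induction M using Multiset.induction_on with
  | empty => exact ⟨0, 0, 0, 0, 0, 0, 0, 0, 0, 0, by simp [KK, LL]⟩
  | cons e M ih =>
    obtain ⟨w0, w1, w2, w3, w4, w5, l0, l1, l2, l3, rfl⟩ := ih
    obtain ⟨v0, v1, v2, v3, v4, v5, m0, m1, m2, m3, he⟩ := single_decomp e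
    refine ⟨v0 + w0, v1 + w1, v2 + w2, v3 + w3, v4 + w4, v5 + w5, m0 + l0, m1 + l1, m2 + l2,
      m3 + l3, ?_⟩
    rw [← Multiset.singleton_add, he, KK_add, LL_add]
    abel

theorem cut_KK_LL (σ : Fin 4 → Bool) (w0 w1 w2 w3 w4 w5 l0 l1 l2 l3 : ℕ) :
    cut σ (KK w0 w1 w2 w3 w4 w5 + LL l0 l1 l2 l3) =
      w0 * cr σ s(0, 1) + w1 * cr σ s(0, 2) + w2 * cr σ s(0, 3) + w3 * cr σ s(1, 2) +
        w4 * cr σ s(1, 3) + w5 * cr σ s(2, 3) := by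
  simp [cut, KK, LL, Multiset.map_nsmul, Multiset.sum_nsmul]

/-- The cut separating the vertex `X`. -/
def starσ (X : Fin 4) : Fin 4 → Bool := fun y => decide (y = X)

/-- The cut separating `3` and `k` from the other two vertices. -/
def bisσ (k : Fin 3) : Fin 4 → Bool := fun y => decide (y = 3 ∨ y = k.castSucc)

theorem red_hub (S D : Multiset (Sym2 (Fin 4)))
    (h1 : ∀ X, cut (starσ X) D ≤ cut (starσ X) S + 3)
    (h2 : ∀ k, cut (bisσ k) D ≤ cut (bisσ k) S + 2) :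
    Red (KK 1 1 1 1 1 1 + S) D := by
  obtain ⟨w0, w1, w2, w3, w4, w5, l0, l1, l2, l3, rfl⟩ := decomp S
  obtain ⟨d0, d1, d2, d3, d4, d5, m0, m1, m2, m3, rfl⟩ := decomp D
  have a0 := h1 0
  have a1 := h1 1
  have a2 := h1 2
  have a3 := h1 3
  have b0 := h2 0
  have b1 := h2 1
  have b2 := h2 2
  rw [cut_KK_LL, cut_KK_LL] at a0 a1 a2 a3 b0 b1 b2
  simp [starσ, bisσ] at a0 a1 a2 a3 b0 b1 b2
  rw [← add_assoc, ← KK_add]
  refine Red.add ?_ ((Red.to_zero _).trans (red_LL _ _ _ _))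
  apply red_of_slack <;> omega

end Pool.Agent.Lib.MP_453ac3_co
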