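import Pool.Agent.Lib.MP_453ac3_co.Red

/-! Routing on four vertices under the cut condition. -/

namespace Pool.Agent.Lib.MP_453ac3_co

/-- The multigraph on four vertices with the given edge multiplicities. -/
def KK (w0 w1 w2 w3 w4 w5 : ℕ) : Multiset (Sym2 (Fin 4)) :=
  w0 • {s(0, 1)} + w1 • {s(0, 2)} + w2 • {s(0, 3)} + w3 • {s(1, 2)} + w4 • {s(1, 3)} +
    w5 • {s(2, 3)}

theorem KK_add (w0 w1 w2 w3 w4 w5 d0 d1 d2 d3 d4 d5 : ℕ) :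
    KK (w0 + d0) (w1 + d1) (w2 + d2) (w3 + d3) (w4 + d4) (w5 + d5) =
      KK w0 w1 w2 w3 w4 w5 + KK d0 d1 d2 d3 d4 d5 := by
  simp only [KK, add_smul]
  abel

theorem KK_zero : KK 0 0 0 0 0 0 = 0 := by simp [KK]

theorem KK_step {u0 u1 u2 u3 u4 u5 v0 v1 v2 v3 v4 v5 : ℕ}
    (h : Red (KK u0 u1 u2 u3 u4 u5) (KK v0 v1 v2 v3 v4 v5)) {w0 w1 w2 w3 w4 w5 : ℕ}
    (h0 : u0 ≤ w0) (h1 : u1 ≤ w1) (h2 : u2 ≤ w2) (h3 : u3 ≤ w3) (h4 : u4 ≤ w4) (h5 : u5 ≤ w5) :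
    Red (KK w0 w1 w2 w3 w4 w5) (KK (w0 - u0 + v0) (w1 - u1 + v1) (w2 - u2 + v2)
      (w3 - u3 + v3) (w4 - u4 + v4) (w5 - u5 + v5)) := by
  have := (Red.refl (KK (w0 - u0) (w1 - u1) (w2 - u2) (w3 - u3) (w4 - u4) (w5 - u5))).add h
  rw [← KK_add, ← KK_add, Nat.sub_add_cancel h0, Nat.sub_add_cancel h1, Nat.sub_add_cancel h2,
    Nat.sub_add_cancel h3, Nat.sub_add_cancel h4, Nat.sub_add_cancel h5] at this
  exact this

theorem KK_cancel (u0 u1 u2 u3 u4 u5 : ℕ) {w0 w1 w2 w3 w4 w5 d0 d1 d2 d3 d4 d5 : ℕ}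
    (h : Red (KK (w0 - u0) (w1 - u1) (w2 - u2) (w3 - u3) (w4 - u4) (w5 - u5))
      (KK (d0 - u0) (d1 - u1) (d2 - u2) (d3 - u3) (d4 - u4) (d5 - u5)))
    (h0 : u0 ≤ w0) (h1 : u1 ≤ w1) (h2 : u2 ≤ w2) (h3 : u3 ≤ w3) (h4 : u4 ≤ w4) (h5 : u5 ≤ w5)
    (k0 : u0 ≤ d0) (k1 : u1 ≤ d1) (k2 : u2 ≤ d2) (k3 : u3 ≤ d3) (k4 : u4 ≤ d4) (k5 : u5 ≤ d5) :
    Red (KK w0 w1 w2 w3 w4 w5) (KK d0 d1 d2 d3 d4 d5) := by
  have := h.add (Red.refl (KK u0 u1 u2 u3 u4 u5))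
  rw [← KK_add, ← KK_add, Nat.sub_add_cancel h0, Nat.sub_add_cancel h1, Nat.sub_add_cancel h2,
    Nat.sub_add_cancel h3, Nat.sub_add_cancel h4, Nat.sub_add_cancel h5,
    Nat.sub_add_cancel k0, Nat.sub_add_cancel k1, Nat.sub_add_cancel k2,
    Nat.sub_add_cancel k3, Nat.sub_add_cancel k4, Nat.sub_add_cancel k5] at this
  exact this

theorem sp102 : Red (KK 1 1 0 0 0 0) (KK 0 0 0 1 0 0) := by
  have h1 : KK 1 1 0 0 0 0 = {s(1, 0), s(0, 2)} := by decide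
  have h2 : KK 0 0 0 1 0 0 = {s(1, 2)} := by decide
  rw [h1, h2]
  exact Red.merge2 _ _ _

theorem sp103 : Red (KK 1 0 1 0 0 0) (KK 0 0 0 0 1 0) := by
  have h1 : KK 1 0 1 0 0 0 = {s(1, 0), s(0, 3)} := by decide
  have h2 : KK 0 0 0 0 1 0 = {s(1, 3)} := by decide
  rw [h1, h2]
  exact Red.merge2 _ _ _

theorem sp203 : Red (KK 0 1 1 0 0 0) (KK 0 0 0 0 0 1) := by
  have h1 : KK 0 1 1 0 0 0 = {s(2, 0), s(0, 3)} := by decide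
  have h2 : KK 0 0 0 0 0 1 = {s(2, 3)} := by decide
  rw [h1, h2]
  exact Red.merge2 _ _ _

theorem sp012 : Red (KK 1 0 0 1 0 0) (KK 0 1 0 0 0 0) := by
  have h1 : KK 1 0 0 1 0 0 = {s(0, 1), s(1, 2)} := by decide
  have h2 : KK 0 1 0 0 0 0 = {s(0, 2)} := by decide
  rw [h1, h2]
  exact Red.merge2 _ _ _

theorem sp013 : Red (KK 1 0 0 0 1 0) (KK 0 0 1 0 0 0) := by
  have h1 : KK 1 0 0 0 1 0 = {s(0, 1), s(1, 3)} := by decide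
  have h2 : KK 0 0 1 0 0 0 = {s(0, 3)} := by decide
  rw [h1, h2]
  exact Red.merge2 _ _ _

theorem sp213 : Red (KK 0 0 0 1 1 0) (KK 0 0 0 0 0 1) := by
  have h1 : KK 0 0 0 1 1 0 = {s(2, 1), s(1, 3)} := by decide
  have h2 : KK 0 0 0 0 0 1 = {s(2, 3)} := by decide
  rw [h1, h2]
  exact Red.merge2 _ _ _

theorem sp021 : Red (KK 0 1 0 1 0 0) (KK 1 0 0 0 0 0) := by
  have h1 : KK 0 1 0 1 0 0 = {s(0, 2), s(2, 1)} := by decide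
  have h2 : KK 1 0 0 0 0 0 = {s(0, 1)} := by decide
  rw [h1, h2]
  exact Red.merge2 _ _ _

theorem sp023 : Red (KK 0 1 0 0 0 1) (KK 0 0 1 0 0 0) := by
  have h1 : KK 0 1 0 0 0 1 = {s(0, 2), s(2, 3)} := by decide
  have h2 : KK 0 0 1 0 0 0 = {s(0, 3)} := by decide
  rw [h1, h2]
  exact Red.merge2 _ _ _

theorem sp123 : Red (KK 0 0 0 1 0 1) (KK 0 0 0 0 1 0) := by
  have h1 : KK 0 0 0 1 0 1 = {s(1, 2), s(2, 3)} := by decide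
  have h2 : KK 0 0 0 0 1 0 = {s(1, 3)} := by decide
  rw [h1, h2]
  exact Red.merge2 _ _ _

theorem sp031 : Red (KK 0 0 1 0 1 0) (KK 1 0 0 0 0 0) := by
  have h1 : KK 0 0 1 0 1 0 = {s(0, 3), s(3, 1)} := by decide
  have h2 : KK 1 0 0 0 0 0 = {s(0, 1)} := by decide
  rw [h1, h2]
  exact Red.merge2 _ _ _

theorem sp032 : Red (KK 0 0 1 0 0 1) (KK 0 1 0 0 0 0) := by
  have h1 : KK 0 0 1 0 0 1 = {s(0, 3), s(3, 2)} := by decide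
  have h2 : KK 0 1 0 0 0 0 = {s(0, 2)} := by decide
  rw [h1, h2]
  exact Red.merge2 _ _ _

theorem sp132 : Red (KK 0 0 0 0 1 1) (KK 0 0 0 1 0 0) := by
  have h1 : KK 0 0 0 0 1 1 = {s(1, 3), s(3, 2)} := by decide
  have h2 : KK 0 0 0 1 0 0 = {s(1, 2)} := by decide
  rw [h1, h2]
  exact Red.merge2 _ _ _



/-- Parity and cut conditions. -/
def Good (w0 w1 w2 w3 w4 w5 d0 d1 d2 d3 d4 d5 t0 t1 t2 t3 : ℕ) : Prop :=
  w0 + w1 + w2 = d0 + d1 + d2 + 2 * t0 ∧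
  w0 + w3 + w4 = d0 + d3 + d4 + 2 * t1 ∧
  w1 + w3 + w5 = d1 + d3 + d5 + 2 * t2 ∧
  w2 + w4 + w5 = d2 + d4 + d5 + 2 * t3 ∧
  w0 ≤ t0 + t1 + d0 ∧
  w1 ≤ t0 + t2 + d1 ∧
  w2 ≤ t0 + t3 + d2

/-- The induction hypothesis. -/
def IH (N : ℕ) : Prop := ∀ w0 w1 w2 w3 w4 w5 d0 d1 d2 d3 d4 d5 t0 t1 t2 t3 : ℕ,
    w0 + w1 + w2 + w3 + w4 + w5 ≤ N → Good w0 w1 w2 w3 w4 w5 d0 d1 d2 d3 d4 d5 t0 t1 t2 t3 →
    Red (KK w0 w1 w2 w3 w4 w5) (KK d0 d1 d2 d3 d4 d5)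

section
variable {N w0 w1 w2 w3 w4 w5 d0 d1 d2 d3 d4 d5 t0 t1 t2 t3 : ℕ} (ih : IH N)
  (hN : w0 + w1 + w2 + w3 + w4 + w5 ≤ N + 1)
  (hg : Good w0 w1 w2 w3 w4 w5 d0 d1 d2 d3 d4 d5 t0 t1 t2 t3)
include ih hN hg

theorem canc0 (h1 : 1 ≤ w0) (h2 : 1 ≤ d0) :
    Red (KK w0 w1 w2 w3 w4 w5) (KK d0 d1 d2 d3 d4 d5) :=
  KK_cancel 1 0 0 0 0 0 (ih _ _ _ _ _ _ _ _ _ _ _ _ t0 t1 t2 t3 (by omega)
    (by unfold Good at hg ⊢; omega))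
    (by omega) (by omega) (by omega) (by omega) (by omega) (by omega)
    (by omega) (by omega) (by omega) (by omega) (by omega) (by omega)

theorem canc1 (h1 : 1 ≤ w1) (h2 : 1 ≤ d1) :
    Red (KK w0 w1 w2 w3 w4 w5) (KK d0 d1 d2 d3 d4 d5) :=
  KK_cancel 0 1 0 0 0 0 (ih _ _ _ _ _ _ _ _ _ _ _ _ t0 t1 t2 t3 (by omega)
    (by unfold Good at hg ⊢; omega))
    (by omega) (by omega) (by omega) (by omega) (by omega) (by omega)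
    (by omega) (by omega) (by omega) (by omega) (by omega) (by omega)

theorem canc2 (h1 : 1 ≤ w2) (h2 : 1 ≤ d2) :
    Red (KK w0 w1 w2 w3 w4 w5) (KK d0 d1 d2 d3 d4 d5) :=
  KK_cancel 0 0 1 0 0 0 (ih _ _ _ _ _ _ _ _ _ _ _ _ t0 t1 t2 t3 (by omega)
    (by unfold Good at hg ⊢; omega))
    (by omega) (by omega) (by omega) (by omega) (by omega) (by omega)
    (by omega) (by omega) (by omega) (by omega) (by omega) (by omega)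

theorem canc3 (h1 : 1 ≤ w3) (h2 : 1 ≤ d3) :
    Red (KK w0 w1 w2 w3 w4 w5) (KK d0 d1 d2 d3 d4 d5) :=
  KK_cancel 0 0 0 1 0 0 (ih _ _ _ _ _ _ _ _ _ _ _ _ t0 t1 t2 t3 (by omega)
    (by unfold Good at hg ⊢; omega))
    (by omega) (by omega) (by omega) (by omega) (by omega) (by omega)
    (by omega) (by omega) (by omega) (by omega) (by omega) (by omega)

theorem canc4 (h1 : 1 ≤ w4) (h2 : 1 ≤ d4) :
    Red (KK w0 w1 w2 w3 w4 w5) (KK d0 d1 d2 d3 d4 d5) :=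
  KK_cancel 0 0 0 0 1 0 (ih _ _ _ _ _ _ _ _ _ _ _ _ t0 t1 t2 t3 (by omega)
    (by unfold Good at hg ⊢; omega))
    (by omega) (by omega) (by omega) (by omega) (by omega) (by omega)
    (by omega) (by omega) (by omega) (by omega) (by omega) (by omega)

theorem canc5 (h1 : 1 ≤ w5) (h2 : 1 ≤ d5) :
    Red (KK w0 w1 w2 w3 w4 w5) (KK d0 d1 d2 d3 d4 d5) :=
  KK_cancel 0 0 0 0 0 1 (ih _ _ _ _ _ _ _ _ _ _ _ _ t0 t1 t2 t3 (by omega)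
    (by unfold Good at hg ⊢; omega))
    (by omega) (by omega) (by omega) (by omega) (by omega) (by omega)
    (by omega) (by omega) (by omega) (by omega) (by omega) (by omega)

theorem st102 (h1 : 1 ≤ w0) (h2 : 1 ≤ w1) (h3 : 1 ≤ t0)
    (h4 : w3 + 1 ≤ t1 + t2 + d3) :
    Red (KK w0 w1 w2 w3 w4 w5) (KK d0 d1 d2 d3 d4 d5) :=
  (KK_step sp102 (by omega) (by omega) (by omega) (by omega) (by omega) (by omega)).trans
    (ih _ _ _ _ _ _ _ _ _ _ _ _ (t0 - 1) t1 t2 t3 (by omega) (by unfold Good at hg ⊢; omega))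

theorem st103 (h1 : 1 ≤ w0) (h2 : 1 ≤ w2) (h3 : 1 ≤ t0)
    (h4 : w4 + 1 ≤ t1 + t3 + d4) :
    Red (KK w0 w1 w2 w3 w4 w5) (KK d0 d1 d2 d3 d4 d5) :=
  (KK_step sp103 (by omega) (by omega) (by omega) (by omega) (by omega) (by omega)).trans
    (ih _ _ _ _ _ _ _ _ _ _ _ _ (t0 - 1) t1 t2 t3 (by omega) (by unfold Good at hg ⊢; omega))

theorem st203 (h1 : 1 ≤ w1) (h2 : 1 ≤ w2) (h3 : 1 ≤ t0)
    (h4 : w5 + 1 ≤ t2 + t3 + d5) :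
    Red (KK w0 w1 w2 w3 w4 w5) (KK d0 d1 d2 d3 d4 d5) :=
  (KK_step sp203 (by omega) (by omega) (by omega) (by omega) (by omega) (by omega)).trans
    (ih _ _ _ _ _ _ _ _ _ _ _ _ (t0 - 1) t1 t2 t3 (by omega) (by unfold Good at hg ⊢; omega))

theorem st012 (h1 : 1 ≤ w0) (h2 : 1 ≤ w3) (h3 : 1 ≤ t1)
    (h4 : w1 + 1 ≤ t0 + t2 + d1) :
    Red (KK w0 w1 w2 w3 w4 w5) (KK d0 d1 d2 d3 d4 d5) :=
  (KK_step sp012 (by omega) (by omega) (by omega) (by omega) (by omega) (by omega)).trans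
    (ih _ _ _ _ _ _ _ _ _ _ _ _ t0 (t1 - 1) t2 t3 (by omega) (by unfold Good at hg ⊢; omega))

theorem st013 (h1 : 1 ≤ w0) (h2 : 1 ≤ w4) (h3 : 1 ≤ t1)
    (h4 : w2 + 1 ≤ t0 + t3 + d2) :
    Red (KK w0 w1 w2 w3 w4 w5) (KK d0 d1 d2 d3 d4 d5) :=
  (KK_step sp013 (by omega) (by omega) (by omega) (by omega) (by omega) (by omega)).trans
    (ih _ _ _ _ _ _ _ _ _ _ _ _ t0 (t1 - 1) t2 t3 (by omega) (by unfold Good at hg ⊢; omega))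

theorem st213 (h1 : 1 ≤ w3) (h2 : 1 ≤ w4) (h3 : 1 ≤ t1)
    (h4 : w5 + 1 ≤ t2 + t3 + d5) :
    Red (KK w0 w1 w2 w3 w4 w5) (KK d0 d1 d2 d3 d4 d5) :=
  (KK_step sp213 (by omega) (by omega) (by omega) (by omega) (by omega) (by omega)).trans
    (ih _ _ _ _ _ _ _ _ _ _ _ _ t0 (t1 - 1) t2 t3 (by omega) (by unfold Good at hg ⊢; omega))

theorem st021 (h1 : 1 ≤ w1) (h2 : 1 ≤ w3) (h3 : 1 ≤ t2)
    (h4 : w0 + 1 ≤ t0 + t1 + d0) :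
    Red (KK w0 w1 w2 w3 w4 w5) (KK d0 d1 d2 d3 d4 d5) :=
  (KK_step sp021 (by omega) (by omega) (by omega) (by omega) (by omega) (by omega)).trans
    (ih _ _ _ _ _ _ _ _ _ _ _ _ t0 t1 (t2 - 1) t3 (by omega) (by unfold Good at hg ⊢; omega))

theorem st023 (h1 : 1 ≤ w1) (h2 : 1 ≤ w5) (h3 : 1 ≤ t2)
    (h4 : w2 + 1 ≤ t0 + t3 + d2) :
    Red (KK w0 w1 w2 w3 w4 w5) (KK d0 d1 d2 d3 d4 d5) :=
  (KK_step sp023 (by omega) (by omega) (by omega) (by omega) (by omega) (by omega)).trans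
    (ih _ _ _ _ _ _ _ _ _ _ _ _ t0 t1 (t2 - 1) t3 (by omega) (by unfold Good at hg ⊢; omega))

theorem st123 (h1 : 1 ≤ w3) (h2 : 1 ≤ w5) (h3 : 1 ≤ t2)
    (h4 : w4 + 1 ≤ t1 + t3 + d4) :
    Red (KK w0 w1 w2 w3 w4 w5) (KK d0 d1 d2 d3 d4 d5) :=
  (KK_step sp123 (by omega) (by omega) (by omega) (by omega) (by omega) (by omega)).trans
    (ih _ _ _ _ _ _ _ _ _ _ _ _ t0 t1 (t2 - 1) t3 (by omega) (by unfold Good at hg ⊢; omega))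

theorem st031 (h1 : 1 ≤ w2) (h2 : 1 ≤ w4) (h3 : 1 ≤ t3)
    (h4 : w0 + 1 ≤ t0 + t1 + d0) :
    Red (KK w0 w1 w2 w3 w4 w5) (KK d0 d1 d2 d3 d4 d5) :=
  (KK_step sp031 (by omega) (by omega) (by omega) (by omega) (by omega) (by omega)).trans
    (ih _ _ _ _ _ _ _ _ _ _ _ _ t0 t1 t2 (t3 - 1) (by omega) (by unfold Good at hg ⊢; omega))

theorem st032 (h1 : 1 ≤ w2) (h2 : 1 ≤ w5) (h3 : 1 ≤ t3)
    (h4 : w1 + 1 ≤ t0 + t2 + d1) :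
    Red (KK w0 w1 w2 w3 w4 w5) (KK d0 d1 d2 d3 d4 d5) :=
  (KK_step sp032 (by omega) (by omega) (by omega) (by omega) (by omega) (by omega)).trans
    (ih _ _ _ _ _ _ _ _ _ _ _ _ t0 t1 t2 (t3 - 1) (by omega) (by unfold Good at hg ⊢; omega))

theorem st132 (h1 : 1 ≤ w4) (h2 : 1 ≤ w5) (h3 : 1 ≤ t3)
    (h4 : w3 + 1 ≤ t1 + t2 + d3) :
    Red (KK w0 w1 w2 w3 w4 w5) (KK d0 d1 d2 d3 d4 d5) :=
  (KK_step sp132 (by omega) (by omega) (by omega) (by omega) (by omega) (by omega)).trans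
    (ih _ _ _ _ _ _ _ _ _ _ _ _ t0 t1 t2 (t3 - 1) (by omega) (by unfold Good at hg ⊢; omega))

theorem dem0 (c0 : w0 = 0 ∨ d0 = 0) (c1 : w1 = 0 ∨ d1 = 0) (c2 : w2 = 0 ∨ d2 = 0) (c3 : w3 = 0 ∨ d3 = 0) (c4 : w4 = 0 ∨ d4 = 0) (c5 : w5 = 0 ∨ d5 = 0)
    (e : 1 ≤ d0) : Red (KK w0 w1 w2 w3 w4 w5) (KK d0 d1 d2 d3 d4 d5) := by
  obtain ⟨a0, a1, a2, a3, b1, b2, b3⟩ := id hg
  have e0 : w0 = 0 := by omega
  clear c0
  by_cases f1 : 1 ≤ w1 ∧ 1 ≤ w3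
  · by_cases g : 1 ≤ t2
    · exact st021 ih hN hg (by omega) (by omega) (by omega) (by omega)
    · exact st203 ih hN hg (by omega) (by omega) (by omega) (by omega)
  by_cases f2 : 1 ≤ w2 ∧ 1 ≤ w4
  · by_cases g : 1 ≤ t3
    · exact st031 ih hN hg (by omega) (by omega) (by omega) (by omega)
    · exact st203 ih hN hg (by omega) (by omega) (by omega) (by omega)
  by_cases f3 : 1 ≤ w1
  · exact st023 ih hN hg (by omega) (by omega) (by omega) (by omega)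
  · exact st032 ih hN hg (by omega) (by omega) (by omega) (by omega)

theorem dem1 (c0 : w0 = 0 ∨ d0 = 0) (c1 : w1 = 0 ∨ d1 = 0) (c2 : w2 = 0 ∨ d2 = 0) (c3 : w3 = 0 ∨ d3 = 0) (c4 : w4 = 0 ∨ d4 = 0) (c5 : w5 = 0 ∨ d5 = 0)
    (e : 1 ≤ d1) : Red (KK w0 w1 w2 w3 w4 w5) (KK d0 d1 d2 d3 d4 d5) := by
  obtain ⟨a0, a1, a2, a3, b1, b2, b3⟩ := id hg
  have e0 : w1 = 0 := by omega
  clear c1
  by_cases f1 : 1 ≤ w0 ∧ 1 ≤ w3
  · by_cases g : 1 ≤ t1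
    · exact st012 ih hN hg (by omega) (by omega) (by omega) (by omega)
    · exact st103 ih hN hg (by omega) (by omega) (by omega) (by omega)
  by_cases f2 : 1 ≤ w2 ∧ 1 ≤ w5
  · by_cases g : 1 ≤ t3
    · exact st032 ih hN hg (by omega) (by omega) (by omega) (by omega)
    · exact st103 ih hN hg (by omega) (by omega) (by omega) (by omega)
  by_cases f3 : 1 ≤ w0
  · exact st013 ih hN hg (by omega) (by omega) (by omega) (by omega)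
  · exact st031 ih hN hg (by omega) (by omega) (by omega) (by omega)

theorem dem2 (c0 : w0 = 0 ∨ d0 = 0) (c1 : w1 = 0 ∨ d1 = 0) (c2 : w2 = 0 ∨ d2 = 0) (c3 : w3 = 0 ∨ d3 = 0) (c4 : w4 = 0 ∨ d4 = 0) (c5 : w5 = 0 ∨ d5 = 0)
    (e : 1 ≤ d2) : Red (KK w0 w1 w2 w3 w4 w5) (KK d0 d1 d2 d3 d4 d5) := by
  obtain ⟨a0, a1, a2, a3, b1, b2, b3⟩ := id hg
  have e0 : w2 = 0 := by omega
  clear c2
  by_cases f1 : 1 ≤ w0 ∧ 1 ≤ w4
  · by_cases g : 1 ≤ t1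
    · exact st013 ih hN hg (by omega) (by omega) (by omega) (by omega)
    · exact st102 ih hN hg (by omega) (by omega) (by omega) (by omega)
  by_cases f2 : 1 ≤ w1 ∧ 1 ≤ w5
  · by_cases g : 1 ≤ t2
    · exact st023 ih hN hg (by omega) (by omega) (by omega) (by omega)
    · exact st102 ih hN hg (by omega) (by omega) (by omega) (by omega)
  by_cases f3 : 1 ≤ w0
  · exact st012 ih hN hg (by omega) (by omega) (by omega) (by omega)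
  · exact st021 ih hN hg (by omega) (by omega) (by omega) (by omega)

theorem dem3 (c0 : w0 = 0 ∨ d0 = 0) (c1 : w1 = 0 ∨ d1 = 0) (c2 : w2 = 0 ∨ d2 = 0) (c3 : w3 = 0 ∨ d3 = 0) (c4 : w4 = 0 ∨ d4 = 0) (c5 : w5 = 0 ∨ d5 = 0)
    (e : 1 ≤ d3) : Red (KK w0 w1 w2 w3 w4 w5) (KK d0 d1 d2 d3 d4 d5) := by
  obtain ⟨a0, a1, a2, a3, b1, b2, b3⟩ := id hg
  have e0 : w3 = 0 := by omega
  clear c3
  by_cases f1 : 1 ≤ w0 ∧ 1 ≤ w1
  · by_cases g : 1 ≤ t0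
    · exact st102 ih hN hg (by omega) (by omega) (by omega) (by omega)
    · exact st013 ih hN hg (by omega) (by omega) (by omega) (by omega)
  by_cases f2 : 1 ≤ w4 ∧ 1 ≤ w5
  · by_cases g : 1 ≤ t3
    · exact st132 ih hN hg (by omega) (by omega) (by omega) (by omega)
    · exact st013 ih hN hg (by omega) (by omega) (by omega) (by omega)
  by_cases f3 : 1 ≤ w0
  · exact st103 ih hN hg (by omega) (by omega) (by omega) (by omega)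
  · exact st031 ih hN hg (by omega) (by omega) (by omega) (by omega)

theorem dem4 (c0 : w0 = 0 ∨ d0 = 0) (c1 : w1 = 0 ∨ d1 = 0) (c2 : w2 = 0 ∨ d2 = 0) (c3 : w3 = 0 ∨ d3 = 0) (c4 : w4 = 0 ∨ d4 = 0) (c5 : w5 = 0 ∨ d5 = 0)
    (e : 1 ≤ d4) : Red (KK w0 w1 w2 w3 w4 w5) (KK d0 d1 d2 d3 d4 d5) := by
  obtain ⟨a0, a1, a2, a3, b1, b2, b3⟩ := id hg
  have e0 : w4 = 0 := by omega
  clear c4
  by_cases f1 : 1 ≤ w0 ∧ 1 ≤ w2
  · by_cases g : 1 ≤ t0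
    · exact st103 ih hN hg (by omega) (by omega) (by omega) (by omega)
    · exact st012 ih hN hg (by omega) (by omega) (by omega) (by omega)
  by_cases f2 : 1 ≤ w3 ∧ 1 ≤ w5
  · by_cases g : 1 ≤ t2
    · exact st123 ih hN hg (by omega) (by omega) (by omega) (by omega)
    · exact st012 ih hN hg (by omega) (by omega) (by omega) (by omega)
  by_cases f3 : 1 ≤ w0
  · exact st102 ih hN hg (by omega) (by omega) (by omega) (by omega)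
  · exact st021 ih hN hg (by omega) (by omega) (by omega) (by omega)

theorem dem5 (c0 : w0 = 0 ∨ d0 = 0) (c1 : w1 = 0 ∨ d1 = 0) (c2 : w2 = 0 ∨ d2 = 0) (c3 : w3 = 0 ∨ d3 = 0) (c4 : w4 = 0 ∨ d4 = 0) (c5 : w5 = 0 ∨ d5 = 0)
    (e : 1 ≤ d5) : Red (KK w0 w1 w2 w3 w4 w5) (KK d0 d1 d2 d3 d4 d5) := by
  obtain ⟨a0, a1, a2, a3, b1, b2, b3⟩ := id hg
  have e0 : w5 = 0 := by omega
  clear c5
  by_cases f1 : 1 ≤ w1 ∧ 1 ≤ w2
  · by_cases g : 1 ≤ t0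
    · exact st203 ih hN hg (by omega) (by omega) (by omega) (by omega)
    · exact st021 ih hN hg (by omega) (by omega) (by omega) (by omega)
  by_cases f2 : 1 ≤ w3 ∧ 1 ≤ w4
  · by_cases g : 1 ≤ t1
    · exact st213 ih hN hg (by omega) (by omega) (by omega) (by omega)
    · exact st021 ih hN hg (by omega) (by omega) (by omega) (by omega)
  by_cases f3 : 1 ≤ w1
  · exact st102 ih hN hg (by omega) (by omega) (by omega) (by omega)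
  · exact st012 ih hN hg (by omega) (by omega) (by omega) (by omega)

end

theorem red_of_good (N : ℕ) : IH N := by
  induction N with
  | zero =>
    intro w0 w1 w2 w3 w4 w5 d0 d1 d2 d3 d4 d5 t0 t1 t2 t3 hN hg
    unfold Good at hg
    obtain ⟨rfl, rfl, rfl, rfl, rfl, rfl⟩ :
      d0 = 0 ∧ d1 = 0 ∧ d2 = 0 ∧ d3 = 0 ∧ d4 = 0 ∧ d5 = 0 := by omega
    rw [KK_zero]
    exact Red.to_zero _
  | succ N ih =>
    intro w0 w1 w2 w3 w4 w5 d0 d1 d2 d3 d4 d5 t0 t1 t2 t3 hN hg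
    by_cases c0 : w0 = 0 ∨ d0 = 0
    swap
    · exact canc0 ih hN hg (Nat.pos_of_ne_zero fun h => c0 (Or.inl h))
        (Nat.pos_of_ne_zero fun h => c0 (Or.inr h))
    by_cases c1 : w1 = 0 ∨ d1 = 0
    swap
    · exact canc1 ih hN hg (Nat.pos_of_ne_zero fun h => c1 (Or.inl h))
        (Nat.pos_of_ne_zero fun h => c1 (Or.inr h))
    by_cases c2 : w2 = 0 ∨ d2 = 0
    swap
    · exact canc2 ih hN hg (Nat.pos_of_ne_zero fun h => c2 (Or.inl h))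
        (Nat.pos_of_ne_zero fun h => c2 (Or.inr h))
    by_cases c3 : w3 = 0 ∨ d3 = 0
    swap
    · exact canc3 ih hN hg (Nat.pos_of_ne_zero fun h => c3 (Or.inl h))
        (Nat.pos_of_ne_zero fun h => c3 (Or.inr h))
    by_cases c4 : w4 = 0 ∨ d4 = 0
    swap
    · exact canc4 ih hN hg (Nat.pos_of_ne_zero fun h => c4 (Or.inl h))
        (Nat.pos_of_ne_zero fun h => c4 (Or.inr h))
    by_cases c5 : w5 = 0 ∨ d5 = 0
    swap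
    · exact canc5 ih hN hg (Nat.pos_of_ne_zero fun h => c5 (Or.inl h))
        (Nat.pos_of_ne_zero fun h => c5 (Or.inr h))
    by_cases e0 : 1 ≤ d0
    · exact dem0 ih hN hg c0 c1 c2 c3 c4 c5 e0
    by_cases e1 : 1 ≤ d1
    · exact dem1 ih hN hg c0 c1 c2 c3 c4 c5 e1
    by_cases e2 : 1 ≤ d2
    · exact dem2 ih hN hg c0 c1 c2 c3 c4 c5 e2
    by_cases e3 : 1 ≤ d3
    · exact dem3 ih hN hg c0 c1 c2 c3 c4 c5 e3
    by_cases e4 : 1 ≤ d4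
    · exact dem4 ih hN hg c0 c1 c2 c3 c4 c5 e4
    by_cases e5 : 1 ≤ d5
    · exact dem5 ih hN hg c0 c1 c2 c3 c4 c5 e5
    clear c0 c1 c2 c3 c4 c5 hg hN
    obtain ⟨rfl, rfl, rfl, rfl, rfl, rfl⟩ :
      d0 = 0 ∧ d1 = 0 ∧ d2 = 0 ∧ d3 = 0 ∧ d4 = 0 ∧ d5 = 0 := by omega
    rw [KK_zero]
    exact Red.to_zero _

theorem red_of_slack (w0 w1 w2 w3 w4 w5 d0 d1 d2 d3 d4 d5 : ℕ)
    (p0 : 1 ≤ w0) (p1 : 1 ≤ w1) (p2 : 1 ≤ w2) (p3 : 1 ≤ w3) (p4 : 1 ≤ w4) (p5 : 1 ≤ w5)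
    (s0 : d0 + d1 + d2 ≤ w0 + w1 + w2)
    (s1 : d0 + d3 + d4 ≤ w0 + w3 + w4)
    (s2 : d1 + d3 + d5 ≤ w1 + w3 + w5)
    (s3 : d2 + d4 + d5 ≤ w2 + w4 + w5)
    (b0 : d1 + d2 + d3 + d4 + 2 ≤ w1 + w2 + w3 + w4)
    (b1 : d0 + d2 + d3 + d5 + 2 ≤ w0 + w2 + w3 + w5)
    (b2 : d0 + d1 + d4 + d5 + 2 ≤ w0 + w1 + w4 + w5) :
    Red (KK w0 w1 w2 w3 w4 w5) (KK d0 d1 d2 d3 d4 d5) := by
  obtain ⟨t0, r0, hr0, ht0⟩ : ∃ t r, r ≤ 1 ∧ w0 + w1 + w2 = d0 + d1 + d2 + 2 * t + r :=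
    ⟨((w0 + w1 + w2) - (d0 + d1 + d2)) / 2, ((w0 + w1 + w2) - (d0 + d1 + d2)) % 2,
      by omega, by omega⟩
  obtain ⟨t1, r1, hr1, ht1⟩ : ∃ t r, r ≤ 1 ∧ w0 + w3 + w4 = d0 + d3 + d4 + 2 * t + r :=
    ⟨((w0 + w3 + w4) - (d0 + d3 + d4)) / 2, ((w0 + w3 + w4) - (d0 + d3 + d4)) % 2,
      by omega, by omega⟩
  obtain ⟨t2, r2, hr2, ht2⟩ : ∃ t r, r ≤ 1 ∧ w1 + w3 + w5 = d1 + d3 + d5 + 2 * t + r :=
    ⟨((w1 + w3 + w5) - (d1 + d3 + d5)) / 2, ((w1 + w3 + w5) - (d1 + d3 + d5)) % 2,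
      by omega, by omega⟩
  obtain ⟨t3, r3, hr3, ht3⟩ : ∃ t r, r ≤ 1 ∧ w2 + w4 + w5 = d2 + d4 + d5 + 2 * t + r :=
    ⟨((w2 + w4 + w5) - (d2 + d4 + d5)) / 2, ((w2 + w4 + w5) - (d2 + d4 + d5)) % 2,
      by omega, by omega⟩
  have key : ∀ u0 u1 u2 u3 u4 u5 : ℕ, u0 ≤ 1 → u1 ≤ 1 → u2 ≤ 1 → u3 ≤ 1 → u4 ≤ 1 → u5 ≤ 1 →
      u0 + u1 + u2 = r0 → u0 + u3 + u4 = r1 → u1 + u3 + u5 = r2 → u2 + u4 + u5 = r3 →
      u0 + u1 + u2 + u3 + u4 + u5 ≤ 2 →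
      Red (KK w0 w1 w2 w3 w4 w5) (KK d0 d1 d2 d3 d4 d5) := by
    intro u0 u1 u2 u3 u4 u5 q0 q1 q2 q3 q4 q5 e0 e1 e2 e3 e4
    refine (KK_step (u0 := u0) (u1 := u1) (u2 := u2) (u3 := u3) (u4 := u4) (u5 := u5)
      (KK_zero ▸ Red.to_zero _) (by omega) (by omega) (by omega) (by omega) (by omega)
      (by omega)).trans (red_of_good _ _ _ _ _ _ _ _ _ _ _ _ _ t0 t1 t2 t3 le_rfl
        (by unfold Good; omega))
  have hpar : (r0 + r1 + r2 + r3) % 2 = 0 := by omega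
  interval_cases r0 <;> interval_cases r1 <;> interval_cases r2 <;> interval_cases r3
  · apply key 0 0 0 0 0 0 <;> omega
  · omega
  · omega
  · apply key 0 0 0 0 0 1 <;> omega
  · omega
  · apply key 0 0 0 0 1 0 <;> omega
  · apply key 0 0 0 1 0 0 <;> omega
  · omega
  · omega
  · apply key 0 0 1 0 0 0 <;> omega
  · apply key 0 1 0 0 0 0 <;> omega
  · omega
  · apply key 1 0 0 0 0 0 <;> omega
  · omega
  · omega
  · apply key 1 0 0 0 0 1 <;> omega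

end Pool.Agent.Lib.MP_453ac3_co
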