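import Mathlib

/-! A second moment bound for sums of nearly orthogonal signs. -/

namespace Pool.Agent.Lib.MP_453ac3_co

open Finset

theorem second_moment {ι Ω : Type} [Fintype Ω] (I : Finset ι) (ψ : ι → Ω → ℤ)
    (hb : ∀ i ω, |ψ i ω| ≤ 1)
    (h : ∀ i ∈ I, ∃ (σ : Ω ≃ Ω) (T : Finset ι), T.card ≤ 2 ∧ (∀ ω, ψ i (σ ω) = -ψ i ω) ∧
      ∀ i' ∈ I, i' ∉ T → ∀ ω, ψ i' (σ ω) = ψ i' ω) :
    ∑ ω, (∑ i ∈ I, ψ i ω) ^ 2 ≤ 2 * I.card * Fintype.card Ω := by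
  classical
  have h1 : ∑ ω, (∑ i ∈ I, ψ i ω) ^ 2 = ∑ i ∈ I, ∑ i' ∈ I, ∑ ω, ψ i ω * ψ i' ω := by
    simp only [sq, Finset.sum_mul_sum]
    rw [Finset.sum_comm]
    refine Finset.sum_congr rfl fun i _ => ?_
    rw [Finset.sum_comm]
  rw [h1]
  have h2 : ∀ i ∈ I, ∑ i' ∈ I, ∑ ω, ψ i ω * ψ i' ω ≤ 2 * (Fintype.card Ω : ℤ) := by
    intro i hi
    obtain ⟨σ, T, hT, hσ, hσ'⟩ := h i hi
    have h3 : ∀ i' ∈ I, ∑ ω, ψ i ω * ψ i' ω ≤ if i' ∈ T then (Fintype.card Ω : ℤ) else 0 := by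
      intro i' hi'
      split_ifs with hT'
      · calc ∑ ω, ψ i ω * ψ i' ω ≤ ∑ _ω : Ω, (1 : ℤ) := by
              refine Finset.sum_le_sum fun ω _ => ?_
              have a := abs_le.1 (hb i ω)
              have b := abs_le.1 (hb i' ω)
              nlinarith [a.1, a.2, b.1, b.2]
          _ = _ := by simp
      · have e := Equiv.sum_comp σ fun ω => ψ i ω * ψ i' ω
        simp only [hσ, hσ' i' hi' hT', neg_mul, Finset.sum_neg_distrib] at e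
        linarith
    refine (Finset.sum_le_sum h3).trans ?_
    rw [← Finset.sum_filter, Finset.sum_const, nsmul_eq_mul]
    have : (I.filter (· ∈ T)).card ≤ 2 :=
      le_trans (Finset.card_le_card fun x hx => (Finset.mem_filter.1 hx).2) hT
    have h0 : (0 : ℤ) ≤ Fintype.card Ω := by positivity
    have : ((I.filter (· ∈ T)).card : ℤ) ≤ 2 := by exact_mod_cast this
    nlinarith
  refine (Finset.sum_le_sum h2).trans ?_
  rw [Finset.sum_const, nsmul_eq_mul]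
  linarith

theorem exists_three {Ω : Type} [Fintype Ω] [Nonempty Ω] (Y : Fin 3 → Ω → ℤ) (m : ℤ)
    (h : ∀ k, ∑ ω, (Y k ω) ^ 2 ≤ m * Fintype.card Ω) :
    ∃ ω, ∀ k, (Y k ω) ^ 2 ≤ 3 * m := by
  have : ∃ ω ∈ (Finset.univ : Finset Ω), (Y 0 ω) ^ 2 + (Y 1 ω) ^ 2 + (Y 2 ω) ^ 2 ≤ 3 * m := by
    apply Finset.exists_le_of_sum_le Finset.univ_nonempty
    rw [Finset.sum_add_distrib, Finset.sum_add_distrib, Finset.sum_const, nsmul_eq_mul,
      Finset.card_univ]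
    linarith [h 0, h 1, h 2]
  obtain ⟨ω, -, hω⟩ := this
  refine ⟨ω, fun k => ?_⟩
  have h0 := sq_nonneg (Y 0 ω)
  have h1 := sq_nonneg (Y 1 ω)
  have h2 := sq_nonneg (Y 2 ω)
  fin_cases k
  · simp only [Fin.zero_eta]; linarith
  · simp only [Fin.mk_one]; linarith
  · simp only [Fin.reduceFinMk]; linarith

end Pool.Agent.Lib.MP_453ac3_co
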