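import Pool.Agent.Lib.MP_453ac3_co.Route
import Pool.Agent.Lib.MP_453ac3_co.Moment

/-! Choosing the orientation of the blocks. -/

namespace Pool.Agent.Lib.MP_453ac3_co

open Sum

variable {β ρ : Type} (p q : β → Fin 4) [Fintype β] [Fintype ρ] {ι : Type} [Fintype ι]

theorem star_cut (hpq : ∀ j, p j ≠ q j) (hρ : Fintype.card ρ ≤ 1)
    (s t : ι → VV β ρ) (hinj : Function.Injective (Sum.elim s t)) (ε : β → Bool)
    (I : Finset ι) (X : Fin 4) :
    cut (starσ X) (∑ i ∈ I, {s(ex p q ε (s i), ex p q ε (t i))}) ≤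
      cut (starσ X) (∑ j, {s(p j, q j)}) + 3 := by
  rw [cut_sum, cut_sum]
  have h1 := sum_pair_le s t hinj fun v => if ex p q ε v = X then 1 else 0
  have h2 : ∑ i ∈ I, cr (starσ X) s(ex p q ε (s i), ex p q ε (t i)) ≤
      ∑ i, ((if ex p q ε (s i) = X then 1 else 0) + (if ex p q ε (t i) = X then 1 else 0)) := by
    refine le_trans (Finset.sum_le_sum_of_subset (Finset.subset_univ I))
      (Finset.sum_le_sum fun i _ => ?_)
    by_cases a : ex p q ε (s i) = X <;> by_cases b : ex p q ε (t i) = X <;> simp [starσ, a, b]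
  refine (h2.trans h1).trans ?_
  rw [Fintype.sum_sum_type, Fintype.sum_sum_type, Fintype.sum_prod_type]
  have a1 : ∑ x : Fin 4, (if ex p q ε (inl x : VV β ρ) = X then 1 else 0) = 1 := by
    rw [Fin.sum_univ_four]
    fin_cases X <;> rfl
  have a3 : ∑ z : ρ, (if ex p q ε (inr (inr z) : VV β ρ) = X then 1 else 0) ≤ Fintype.card ρ :=
    (Finset.sum_le_sum (g := fun _ => 1) fun _ _ => by split_ifs <;> simp).trans (by simp)
  have a2 : ∑ j : β, ∑ c : Bool, (if ex p q ε (inr (inl (j, c)) : VV β ρ) = X then 1 else 0) =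
      ∑ j, cr (starσ X) s(p j, q j) := by
    refine Finset.sum_congr rfl fun j _ => ?_
    have := hpq j
    by_cases a : p j = X <;> by_cases b : q j = X <;> cases h : ε j <;>
      simp_all [starσ, ex]
  omega

/-- Sign of the side of the exit. -/
def sg (σ : Fin 4 → Bool) (ε : β → Bool) (v : VV β ρ) : ℤ := if σ (ex p q ε v) then 1 else -1

/-- The vertex lies in a block crossing the cut. -/
def nc (σ : Fin 4 → Bool) : VV β ρ → Prop
  | inr (inl a) => σ (p a.1) ≠ σ (q a.1)
  | _ => False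

open Classical in
theorem moment_cut (s t : ι → VV β ρ) (hinj : Function.Injective (Sum.elim s t))
    (σ : Fin 4 → Bool) (I : Finset ι)
    (hI : ∀ i ∈ I, t i ≠ mate (s i) ∧ (nc p q σ (s i) ∨ nc p q σ (t i))) :
    ∑ ε : β → Bool, (∑ i ∈ I, sg p q σ ε (s i) * sg p q σ ε (t i)) ^ 2 ≤
      (2 * Fintype.card ι : ℤ) * Fintype.card (β → Bool) := by
  refine (second_moment I (fun i ε => sg p q σ ε (s i) * sg p q σ ε (t i)) ?_ ?_).trans ?_
  · intro i ε
    simp only [sg]
    split_ifs <;> simp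
  swap
  · have : (I.card : ℤ) ≤ Fintype.card ι := by exact_mod_cast Finset.card_le_univ I
    have h0 : (0 : ℤ) ≤ Fintype.card (β → Bool) := by positivity
    nlinarith
  have hst : ∀ i, s i ≠ t i := fun i h => by
    have := @hinj (inl i) (inr i) h
    simp at this
  have main : ∀ i ∈ I, ∀ j : β, σ (p j) ≠ σ (q j) →
      ((∃ c, s i = inr (inl (j, c))) ∨ ∃ c, t i = inr (inl (j, c))) →
      ∃ (τ : (β → Bool) ≃ (β → Bool)) (T : Finset ι), T.card ≤ 2 ∧
      (∀ ω, sg p q σ (τ ω) (s i) * sg p q σ (τ ω) (t i) =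
        -(sg p q σ ω (s i) * sg p q σ ω (t i))) ∧
      ∀ i' ∈ I, i' ∉ T → ∀ ω, sg p q σ (τ ω) (s i') * sg p q σ (τ ω) (t i') =
        sg p q σ ω (s i') * sg p q σ ω (t i') := by
    intro i hi j hj hin
    have hinv : Function.Involutive fun ω : β → Bool => Function.update ω j (!ω j) := by
      intro ω
      simp
    have f1 : ∀ (ω : β → Bool) (v : VV β ρ), (∃ c, v = inr (inl (j, c))) →
        sg p q σ (Function.update ω j (!ω j)) v = -sg p q σ ω v := by
      rintro ω _ ⟨c, rfl⟩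
      simp only [sg, ex, Function.update_self]
      cases c <;> cases ω j <;> cases h1 : σ (p j) <;> cases h2 : σ (q j) <;> simp_all
    have f2 : ∀ (ω : β → Bool) (v : VV β ρ), (¬ ∃ c, v = inr (inl (j, c))) →
        sg p q σ (Function.update ω j (!ω j)) v = sg p q σ ω v := by
      intro ω v hv
      rcases v with x | ⟨j', c⟩ | z
      · rfl
      · have : j' ≠ j := fun h => hv ⟨c, by rw [h]⟩
        simp [sg, ex, Function.update_of_ne this]
      · rfl
    refine ⟨hinv.toPerm _, Finset.univ.filter fun i' =>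
      (∃ c, s i' = inr (inl (j, c))) ∨ ∃ c, t i' = inr (inl (j, c)), ?_, ?_, ?_⟩
    · have h1 := sum_pair_le s t hinj fun v => if ∃ c, v = inr (inl (j, c)) then 1 else 0
      rw [Finset.card_filter]
      refine le_trans (Finset.sum_le_sum fun i' _ => ?_) (h1.trans ?_)
      · split_ifs <;> simp_all
      · rw [← Finset.card_filter]
        refine le_trans (Finset.card_le_card (t := {inr (inl (j, true)), inr (inl (j, false))})
          ?_) Finset.card_le_two
        intro v hv
        obtain ⟨c, rfl⟩ := (Finset.mem_filter.1 hv).2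
        cases c <;> simp
    · intro ω
      simp only [Function.Involutive.coe_toPerm]
      have hboth : ¬ ((∃ c, s i = inr (inl (j, c))) ∧ ∃ c, t i = inr (inl (j, c))) := by
        rintro ⟨⟨c, h1⟩, ⟨c', h2⟩⟩
        by_cases hc : c = c'
        · exact hst i (by rw [h1, h2, hc])
        · refine (hI i hi).1 ?_
          rw [h1, h2]
          cases c <;> cases c' <;> simp_all [mate]
      rcases hin with h | h
      · rw [f1 ω _ h, f2 ω _ fun h' => hboth ⟨h, h'⟩]; ring
      · rw [f1 ω _ h, f2 ω _ fun h' => hboth ⟨h', h⟩]; ring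
    · intro i' _ hT ω
      simp only [Finset.mem_filter, Finset.mem_univ, true_and, not_or] at hT
      simp only [Function.Involutive.coe_toPerm]
      rw [f2 ω _ hT.1, f2 ω _ hT.2]
  intro i hi
  rcases (hI i hi).2 with h | h
  · rcases hv : s i with x | ⟨j, c⟩ | z
    · simp [hv, nc] at h
    · rw [hv] at h
      rw [← hv]
      exact main i hi j h (Or.inl ⟨c, hv⟩)
    · simp [hv, nc] at h
  · rcases hv : t i with x | ⟨j, c⟩ | z
    · simp [hv, nc] at h
    · rw [hv] at h
      rw [← hv]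
      exact main i hi j h (Or.inr ⟨c, hv⟩)
    · simp [hv, nc] at h

open Classical in
theorem bis_cut (hρ : Fintype.card ρ ≤ 1)
    (s t : ι → VV β ρ) (hinj : Function.Injective (Sum.elim s t)) (ε : β → Bool)
    (I : Finset ι) (k : Fin 3) :
    (2 * cut (bisσ k) (∑ i ∈ I, {s(ex p q ε (s i), ex p q ε (t i))}) : ℤ) ≤
      Fintype.card ι + 3 +
        2 * ((∑ j, if bisσ k (p j) = true ∧ bisσ k (q j) = true then 1 else 0 : ℕ) : ℤ) -
        ∑ i ∈ I.filter (fun i => nc p q (bisσ k) (s i) ∨ nc p q (bisσ k) (t i)),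
          sg p q (bisσ k) ε (s i) * sg p q (bisσ k) ε (t i) := by
  set σ := bisσ k with hσ
  let F : VV β ρ → ℕ := fun v => if ¬ nc p q σ v ∧ σ (ex p q ε v) = true then 1 else 0
  have h1 := sum_pair_le s t hinj F
  have h2 : ∑ v, F v ≤ 3 + 2 * ∑ j, if σ (p j) = true ∧ σ (q j) = true then 1 else 0 := by
    rw [Fintype.sum_sum_type, Fintype.sum_sum_type, Fintype.sum_prod_type]
    have a1 : ∑ x : Fin 4, F (inl x) ≤ 2 := by
      simp only [F, nc, ex, hσ, bisσ, Fin.sum_univ_four]
      fin_cases k <;> simp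
    have a3 : ∑ z : ρ, F (inr (inr z)) ≤ Fintype.card ρ :=
      (Finset.sum_le_sum (g := fun _ => 1) fun _ _ => by
        simp only [F]; split_ifs <;> simp).trans (by simp)
    have a2 : ∑ j : β, ∑ c : Bool, F (inr (inl (j, c))) =
        2 * ∑ j, if σ (p j) = true ∧ σ (q j) = true then 1 else 0 := by
      rw [Finset.mul_sum]
      refine Finset.sum_congr rfl fun j _ => ?_
      simp only [F, nc, ex, Fintype.sum_bool]
      cases ε j <;> cases h1 : σ (p j) <;> cases h2 : σ (q j) <;> simp [h1, h2]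
    omega
  have h3 : ∀ i ∈ I, (2 * (cr σ s(ex p q ε (s i), ex p q ε (t i)) : ℕ) : ℤ) ≤
      1 + ((F (s i) + F (t i) : ℕ) : ℤ) -
        if nc p q σ (s i) ∨ nc p q σ (t i) then sg p q σ ε (s i) * sg p q σ ε (t i) else 0 := by
    intro i _
    simp only [F, sg, cr_mk]
    by_cases n1 : nc p q σ (s i) <;> by_cases n2 : nc p q σ (t i) <;>
      cases h1 : σ (ex p q ε (s i)) <;> cases h2 : σ (ex p q ε (t i)) <;> simp [n1, n2]
  have h4 := Finset.sum_le_sum h3
  rw [Finset.sum_sub_distrib, Finset.sum_add_distrib, ← Finset.sum_filter, ← Finset.mul_sum,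
    ← Nat.cast_sum, ← Nat.cast_sum, ← cut_sum] at h4
  have h5 : ∑ i ∈ I, (F (s i) + F (t i)) ≤ ∑ i, (F (s i) + F (t i)) :=
    Finset.sum_le_sum_of_subset (Finset.subset_univ I)
  have h6 : ∑ _i ∈ I, (1 : ℤ) ≤ Fintype.card ι := by
    simpa using Finset.card_le_univ I
  have h7 : ((∑ i ∈ I, (F (s i) + F (t i)) : ℕ) : ℤ) ≤
      ((3 + 2 * ∑ j, if σ (p j) = true ∧ σ (q j) = true then 1 else 0 : ℕ) : ℤ) := by
    exact_mod_cast h5.trans (h1.trans h2)
  rw [Nat.cast_add, Nat.cast_mul] at h7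
  simp only [Nat.cast_ofNat] at h7
  linarith

open Classical in
theorem pairable (hpq : ∀ j, p j ≠ q j) (hρ : Fintype.card ρ ≤ 1) (g : ℕ)
    (hg : 3 * Fintype.card (VV β ρ) ≤ g ^ 2)
    (hk : ∀ k : Fin 3, Fintype.card β + 1 +
      2 * (∑ j, if bisσ k (p j) = true ∧ bisσ k (q j) = true then 1 else 0) + g ≤
      2 * ∑ j, cr (bisσ k) s(p j, q j)) : PathPairable (GG p q ρ) := by
  intro m s t hinj
  have hm : 2 * m ≤ Fintype.card (VV β ρ) := by
    have := Fintype.card_le_of_injective _ hinj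
    simp only [Fintype.card_sum, Fintype.card_fin] at this ⊢
    omega
  have hV : Fintype.card (VV β ρ) ≤ 5 + 2 * Fintype.card β := by
    simp only [Fintype.card_sum, Fintype.card_fin, Fintype.card_prod, Fintype.card_bool]
    omega
  obtain ⟨ε, hε⟩ := exists_three (fun k ε => ∑ i ∈ (Finset.univ.filter
    (fun i => t i ≠ mate (s i))).filter (fun i => nc p q (bisσ k) (s i) ∨ nc p q (bisσ k) (t i)),
      sg p q (bisσ k) ε (s i) * sg p q (bisσ k) ε (t i)) (2 * Fintype.card (Fin m) : ℤ)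
    fun k => moment_cut p q s t hinj _ _ fun i hi => by
      simpa using hi
  refine route p q hpq s t hinj ε (red_hub _ _ (fun X => star_cut p q hpq hρ s t hinj ε _ X)
    fun k => ?_)
  have h1 := bis_cut p q hρ s t hinj ε (Finset.univ.filter (fun i => t i ≠ mate (s i))) k
  have h2 := hε k
  have h3 := hk k
  rw [← cut_sum] at h3
  simp only [Fintype.card_fin] at h1 h2
  have h4 : (3 * (2 * (m : ℤ))) ≤ (g : ℤ) ^ 2 := by
    have : 3 * (2 * m) ≤ g ^ 2 := by omega
    exact_mod_cast this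
  have h5 := abs_le_of_sq_le_sq' (h2.trans h4) (by positivity)
  omega

end Pool.Agent.Lib.MP_453ac3_co
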