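import Pool.Agent.Lib.MP_453ac3_co.Graph
import Pool.Agent.Lib.MP_453ac3_co.Hub

/-! Routing in the graph once the blocks are oriented so that the hub-level cut condition holds. -/

namespace Pool.Agent.Lib.MP_453ac3_co

open Sum

/-- The five edges of a block. -/
def five {V : Type} (u v P Q : V) : Multiset (Sym2 V) :=
  {s(u, P)} + {s(v, Q)} + {s(Q, u)} + {s(u, v)} + {s(v, P)}

theorem blk1 {V : Type} (u v P Q : V) :
    Red (five u v P Q) ({s(u, P)} + {s(v, Q)} + {s(P, Q)}) := by
  have := ((Red.refl {s(u, P)}).add (Red.refl {s(v, Q)})).add (Red.merge3 Q u v P)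
  rw [Sym2.eq_swap (a := P) (b := Q)]
  refine (Red.of_eq ?_).trans this
  simp only [five, Multiset.insert_eq_cons, ← Multiset.singleton_add]
  abel

theorem blk2 {V : Type} (u v P Q : V) :
    Red (five u v P Q) ({s(u, Q)} + {s(v, P)} + {s(P, Q)}) := by
  have := ((Red.refl {s(u, Q)}).add (Red.refl {s(v, P)})).add (Red.merge3 P u v Q)
  refine (Red.of_eq ?_).trans this
  rw [Sym2.eq_swap (a := P) (b := u), Sym2.eq_swap (a := u) (b := Q)]
  simp only [five, Multiset.insert_eq_cons, ← Multiset.singleton_add]
  abel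

theorem blk3 {V : Type} (u v P Q : V) :
    Red (five u v P Q) ({s(u, u)} + {s(v, u)} + {s(P, Q)}) := by
  have := (((Red.loop0 u).add (Red.refl {s(v, u)})).add (Red.merge2 Q u P)).add
    (Red.to_zero ({s(v, Q)} + {s(v, P)}))
  rw [add_zero] at this
  rw [Sym2.eq_swap (a := P) (b := Q)]
  refine (Red.of_eq ?_).trans this
  rw [Sym2.eq_swap (a := v) (b := u)]
  simp only [five, Multiset.insert_eq_cons, ← Multiset.singleton_add]
  abel

theorem nodup_sum {α ι : Type} (s : Finset ι) (f : ι → Multiset α)
    (h1 : ∀ i ∈ s, (f i).Nodup) (h2 : ∀ i ∈ s, ∀ j ∈ s, ∀ e ∈ f i, e ∈ f j → i = j) :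
    (∑ i ∈ s, f i).Nodup := by
  classical
  induction s using Finset.induction_on with
  | empty => simp
  | insert a s ha ih =>
    rw [Finset.sum_insert ha, Multiset.nodup_add]
    refine ⟨h1 a (by simp), ih (fun i hi => h1 i (by simp [hi]))
      fun i hi j hj => h2 i (by simp [hi]) j (by simp [hj]), ?_⟩
    rw [Multiset.disjoint_left]
    intro e he he'
    obtain ⟨j, hj, hej⟩ := Multiset.mem_sum.1 he'
    exact ha (h2 a (by simp) j (by simp [hj]) e he hej ▸ hj)

theorem map_sum_single {α γ ι : Type} (g : α → γ) (s : Finset ι) (f : ι → α) :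
    (∑ i ∈ s, ({f i} : Multiset α)).map g = ∑ i ∈ s, {g (f i)} := by
  classical
  induction s using Finset.induction_on with
  | empty => simp
  | insert a s ha ih => rw [Finset.sum_insert ha, Finset.sum_insert ha, Multiset.map_add, ih]; simp

theorem sum_pair_le {V ι M : Type} [Fintype V] [Fintype ι] [AddCommMonoid M] [PartialOrder M]
    [IsOrderedAddMonoid M] [CanonicallyOrderedAdd M] (s t : ι → V)
    (hinj : Function.Injective (Sum.elim s t)) (F : V → M) :
    ∑ i, (F (s i) + F (t i)) ≤ ∑ v, F v := by
  classical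
  have : ∑ i, (F (s i) + F (t i)) = ∑ v ∈ Finset.univ.map ⟨_, hinj⟩, F v := by
    rw [Finset.sum_map, Fintype.sum_sum_type, Finset.sum_add_distrib]
    simp
  rw [this]
  exact Finset.sum_le_sum_of_subset (Finset.subset_univ _)

variable {β ρ : Type} (p q : β → Fin 4)

/-- The hub at which a vertex leaves, for the orientation `ε` of the blocks. -/
def ex (ε : β → Bool) : VV β ρ → Fin 4
  | inl x => x
  | inr (inl a) => if a.2 = ε a.1 then p a.1 else q a.1
  | inr (inr _) => 0

/-- The other vertex of the block. -/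
def mate : VV β ρ → VV β ρ
  | inr (inl a) => inr (inl (a.1, !a.2))
  | v => v

/-- All edges. -/
def EE (ρ : Type) [Fintype β] [Fintype ρ] : Multiset (Sym2 (VV β ρ)) :=
  (KK 1 1 1 1 1 1).map (Sym2.map inl) +
    ∑ j, five (inr (inl (j, true))) (inr (inl (j, false))) (inl (p j)) (inl (q j)) +
    ∑ z : ρ, {s(inr (inr z), inl 0)}

theorem EE_sub [Fintype β] [Fintype ρ] : ∀ e ∈ EE p q ρ, e ∈ (GG p q ρ).edgeSet := by
  intro e he
  simp only [EE, Multiset.mem_add, Multiset.mem_sum, Multiset.mem_map] at he
  rcases he with (⟨a, ha, rfl⟩ | ⟨j, -, he⟩) | ⟨z, -, he⟩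
  · simp only [KK, one_smul, Multiset.mem_add, Multiset.mem_singleton] at ha
    rcases ha with ((((rfl | rfl) | rfl) | rfl) | rfl) | rfl <;> simp [adj_hub_hub]
  · simp only [five, Multiset.mem_add, Multiset.mem_singleton] at he
    rcases he with (((rfl | rfl) | rfl) | rfl) | rfl
    · simp [adj_block]
    · simp [adj_block]
    · rw [Sym2.eq_swap]; simp [adj_block]
    · simp [adj_block]
    · simp [adj_block]
  · rw [Multiset.mem_singleton.1 he]
    simp [adj_pend]

theorem EE_nodup [Fintype β] [Fintype ρ] (hpq : ∀ j, p j ≠ q j) : (EE p q ρ).Nodup := by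
  rw [EE, Multiset.nodup_add, Multiset.nodup_add]
  refine ⟨⟨?_, ?_, ?_⟩, ?_, ?_⟩
  · refine Multiset.Nodup.map (Sym2.map.injective inl_injective) (by decide)
  · refine nodup_sum _ _ (fun j _ => ?_) fun i _ j _ e h1 h2 => ?_
    · simp [five, hpq j, (hpq j).symm]
    · simp only [five, Multiset.mem_add, Multiset.mem_singleton] at h1 h2
      rcases h1 with (((rfl | rfl) | rfl) | rfl) | rfl <;> simp at h2 <;> tauto
  · rw [Multiset.disjoint_left]
    intro e h1 h2
    simp only [Multiset.mem_sum, Multiset.mem_map] at h1 h2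
    obtain ⟨a, -, rfl⟩ := h1
    obtain ⟨j, -, h2⟩ := h2
    induction a using Sym2.ind with
    | h a b => simp [five] at h2
  · exact nodup_sum _ _ (fun j _ => by simp) fun i _ j _ e h1 h2 => by
      rw [Multiset.mem_singleton] at h1 h2
      rw [h1] at h2
      simpa using h2
  · rw [Multiset.disjoint_right]
    intro e h1 h2
    simp only [Multiset.mem_sum, Multiset.mem_map, Multiset.mem_add,
      Multiset.mem_singleton] at h1 h2
    obtain ⟨z, -, rfl⟩ := h1
    rcases h2 with ⟨a, -, h2⟩ | ⟨j, -, h2⟩
    · induction a using Sym2.ind with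
      | h a b => simp at h2
    · simp [five] at h2

open Classical in
theorem route [Fintype β] [Fintype ρ] {ι : Type} [Fintype ι] (hpq : ∀ j, p j ≠ q j)
    (s t : ι → VV β ρ) (hinj : Function.Injective (Sum.elim s t)) (ε : β → Bool)
    (hred : Red (KK 1 1 1 1 1 1 + ∑ j, {s(p j, q j)})
      (∑ i ∈ Finset.univ.filter (fun i => t i ≠ mate (s i)),
        {s(ex p q ε (s i), ex p q ε (t i))})) :
    ∃ P : ∀ i, (GG p q ρ).Walk (s i) (t i), (∀ i, (P i).IsPath) ∧
      Pairwise fun i j => List.Disjoint (P i).edges (P j).edges := by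
  have hst : ∀ i j, s i ≠ t j := fun i j h => by
    have := @hinj (inl i) (inr j) h
    simp at this
  have hs : ∀ i j, s i = s j → i = j := fun i j h => by
    simpa using @hinj (inl i) (inl j) h
  have ht : ∀ i j, t i = t j → i = j := fun i j h => by
    simpa using @hinj (inr i) (inr j) h
  refine paths_of_red _ (EE_sub p q) (EE_nodup p q hpq) s t ?_ ?_
  · intro i j h
    simp only [Sym2.eq_iff] at h
    rcases h with h | h
    · exact hs _ _ h.1
    · exact absurd h.1 (hst _ _)
  let B0 : β → Prop := fun j => ∃ i c, s i = inr (inl (j, c)) ∧ t i = inr (inl (j, !c))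
  let X : VV β ρ → VV β ρ := fun v => match v with
    | inr (inl a) => if B0 a.1 then inr (inl (a.1, true)) else inl (ex p q ε v)
    | v => inl (ex p q ε v)
  have hX : ∀ i, t i ≠ mate (s i) →
      X (s i) = inl (ex p q ε (s i)) ∧ X (t i) = inl (ex p q ε (t i)) := by
    intro i hi
    have key : ∀ v, (v = s i ∨ v = t i) → X v = inl (ex p q ε v) := by
      intro v hv
      rcases v with x | ⟨j, c⟩ | z
      · rfl
      · have : ¬ B0 j := by
          rintro ⟨i', c', h1, h2⟩
          have : i' = i := by
            by_cases hc : c = c'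
            · rw [← hc] at h1
              rcases hv with hv | hv
              · exact hs _ _ (h1.trans hv)
              · exact absurd (h1.trans hv) (hst _ _)
            · have hc' : (!c') = c := by cases c <;> cases c' <;> simp_all
              rw [hc'] at h2
              rcases hv with hv | hv
              · exact absurd (h2.trans hv).symm (hst _ _)
              · exact ht _ _ (h2.trans hv)
          subst this
          exact hi (by rw [h1, h2]; rfl)
        simp [X, this]
      · rfl
    exact ⟨key _ (Or.inl rfl), key _ (Or.inr rfl)⟩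
  have hX' : ∀ i, t i = mate (s i) → X (s i) = X (t i) := by
    intro i hi
    rcases hv : s i with x | ⟨j, c⟩ | z
    · exact absurd (by rw [hi, hv]; rfl) (hst i i)
    · have h2 : t i = inr (inl (j, !c)) := by rw [hi, hv]; rfl
      have : B0 j := ⟨i, c, hv, h2⟩
      rw [h2]
      simp [X, this]
    · exact absurd (by rw [hi, hv]; rfl) (hst i i)
  have step1 : Red (EE p q ρ) ((∑ v, {s(v, X v)}) +
      (KK 1 1 1 1 1 1 + ∑ j, {s(p j, q j)}).map (Sym2.map inl)) := by
    have a1 : Red (0 : Multiset (Sym2 (VV β ρ))) (∑ x : Fin 4, {s(inl x, X (inl x))}) := by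
      simpa using Red.sum Finset.univ (fun _ : Fin 4 => (0 : Multiset (Sym2 (VV β ρ))))
        (fun x => {s(inl x, X (inl x))}) fun x _ => Red.loop0 _
    have a2 : Red (∑ j, five (inr (inl (j, true))) (inr (inl (j, false))) (inl (p j)) (inl (q j)))
        (∑ j, ({s(inr (inl (j, true)), X (inr (inl (j, true))))} +
          {s(inr (inl (j, false)), X (inr (inl (j, false))))} +
          {s(inl (p j), inl (q j))} : Multiset (Sym2 (VV β ρ)))) := by
      refine Red.sum _ _ _ fun j _ => ?_
      by_cases hB : B0 j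
      · simpa [X, hB] using blk3 (V := VV β ρ) (inr (inl (j, true))) (inr (inl (j, false)))
          (inl (p j)) (inl (q j))
      · cases hε : ε j
        · simpa [X, hB, ex, hε] using blk2 (V := VV β ρ) (inr (inl (j, true)))
            (inr (inl (j, false))) (inl (p j)) (inl (q j))
        · simpa [X, hB, ex, hε] using blk1 (V := VV β ρ) (inr (inl (j, true)))
            (inr (inl (j, false))) (inl (p j)) (inl (q j))
    have a3 := (((Red.refl ((KK 1 1 1 1 1 1).map (Sym2.map (inl : Fin 4 → VV β ρ)))).add
      a2).add (Red.refl (∑ z : ρ, {s(inr (inr z), inl 0)}))).add a1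
    rw [add_zero] at a3
    refine a3.trans (Red.of_eq ?_)
    rw [Fintype.sum_sum_type, Fintype.sum_sum_type, Fintype.sum_prod_type, Multiset.map_add,
      map_sum_single]
    simp only [Fintype.sum_bool, Finset.sum_add_distrib, Sym2.map_mk]
    have : ∀ z : ρ, X (inr (inr z)) = inl 0 := fun z => rfl
    simp only [this]
    abel
  have step2 : Red ((KK 1 1 1 1 1 1 + ∑ j, {s(p j, q j)}).map (Sym2.map (inl : Fin 4 → VV β ρ)))
      (∑ i, {s(X (s i), X (t i))}) := by
    refine (hred.map inl).trans ?_
    rw [map_sum_single, Finset.sum_filter]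
    refine Red.sum _ _ _ fun i _ => ?_
    split_ifs with hi
    · rw [(hX i hi).1, (hX i hi).2]
      exact Red.refl _
    · rw [hX' i (not_not.1 hi)]
      exact Red.loop0 _
  refine step1.trans (((Red.of_le (sum_pair_le s t hinj fun v => {s(v, X v)})).add step2).trans ?_)
  rw [← Finset.sum_add_distrib]
  refine Red.sum _ _ _ fun i _ => ?_
  refine (Red.of_eq ?_).trans (Red.merge3 (s i) (X (s i)) (X (t i)) (t i))
  rw [Sym2.eq_swap (a := t i)]
  simp only [Multiset.insert_eq_cons, ← Multiset.singleton_add]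
  abel

end Pool.Agent.Lib.MP_453ac3_co
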